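import Mathlib
import Pool.Agent.R361.AC.Prep

set_option autoImplicit false

/-! # Quantitative tails -/

namespace Pool.Agent.K1H92.RB

open Finset Filter Topology
open Pool.Agent.R361.AC
open scoped ComplexConjugate

/-- the tail of `∑ τ(m²)/m²`, with a rate -/
lemma tausq_rate (ε : ℝ) (hε : 0 < ε) (hε1 : 2 * ε ≤ 1) : ∃ C : ℝ, 0 < C ∧ ∀ y : ℕ, 1 ≤ y →
    ∀ N : ℕ, ∑ m ∈ Ioc y N, ((m * m).divisors.card : ℝ) / ((m : ℝ) * m) ≤
      C * (y : ℝ) ^ (-(1 - 2 * ε)) := by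
  obtain ⟨C, hC, h⟩ := Pool.Agent.H510R2.divisor_bound (ε / 2) (by positivity)
  have hs : Summable (fun m : ℕ => 1 / (m : ℝ) ^ (1 + ε)) :=
    Real.summable_one_div_nat_rpow.mpr (by linarith)
  set Z := ∑' m : ℕ, 1 / (m : ℝ) ^ (1 + ε) with hZ
  have hZ0 : 0 ≤ Z := tsum_nonneg fun m => by positivity
  refine ⟨C * (Z + 1), by positivity, fun y hy N => ?_⟩
  have hy0 : (0 : ℝ) < y := by exact_mod_cast hy
  have hterm : ∀ m ∈ Ioc y N, ((m * m).divisors.card : ℝ) / ((m : ℝ) * m) ≤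
      C * (y : ℝ) ^ (-(1 - 2 * ε)) * (1 / (m : ℝ) ^ (1 + ε)) := by
    intro m hm
    rw [mem_Ioc] at hm
    have hm0 : (0 : ℝ) < m := by exact_mod_cast (lt_of_lt_of_le hy hm.1.le)
    have h2 := h (m * m) (Nat.mul_pos (by omega) (by omega))
    push_cast at h2
    have h3 : ((m : ℝ) * m) ^ (ε / 2) = (m : ℝ) ^ ε := by
      rw [← sq, ← Real.rpow_natCast, ← Real.rpow_mul hm0.le]
      congr 1; push_cast; ring
    rw [h3] at h2
    have h4 : (m : ℝ) ^ (-(1 - 2 * ε)) ≤ (y : ℝ) ^ (-(1 - 2 * ε)) := by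
      apply Real.rpow_le_rpow_of_nonpos hy0 _ (by linarith)
      exact_mod_cast hm.1.le
    calc ((m * m).divisors.card : ℝ) / ((m : ℝ) * m) ≤ C * (m : ℝ) ^ ε / ((m : ℝ) * m) := by
          gcongr
      _ = C * (m : ℝ) ^ (-(1 - 2 * ε)) * (1 / (m : ℝ) ^ (1 + ε)) := by
          have e1 : (m : ℝ) * m = (m : ℝ) ^ (2 : ℝ) := by
            rw [show (2 : ℝ) = ((2 : ℕ) : ℝ) by norm_num, Real.rpow_natCast]; ring
          have e2 : (m : ℝ) ^ ε = (m : ℝ) ^ (-(1 - 2 * ε)) * (m : ℝ) ^ (2 : ℝ) *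
              ((m : ℝ) ^ (1 + ε))⁻¹ := by
            rw [← Real.rpow_neg hm0.le (1 + ε), ← Real.rpow_add hm0, ← Real.rpow_add hm0]
            congr 1; ring
          rw [e1, e2]
          have : (m : ℝ) ^ (2 : ℝ) ≠ 0 := (Real.rpow_pos_of_pos hm0 _).ne'
          field_simp
      _ ≤ _ := by gcongr
  calc ∑ m ∈ Ioc y N, ((m * m).divisors.card : ℝ) / ((m : ℝ) * m) ≤
        ∑ m ∈ Ioc y N, C * (y : ℝ) ^ (-(1 - 2 * ε)) * (1 / (m : ℝ) ^ (1 + ε)) := sum_le_sum hterm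
    _ = C * (y : ℝ) ^ (-(1 - 2 * ε)) * ∑ m ∈ Ioc y N, (1 / (m : ℝ) ^ (1 + ε)) := by
        rw [mul_sum]
    _ ≤ C * (y : ℝ) ^ (-(1 - 2 * ε)) * (Z + 1) := by
        apply mul_le_mul_of_nonneg_left _ (by positivity)
        have := hs.sum_le_tsum (Ioc y N) (fun m _ => by positivity)
        linarith
    _ = _ := by ring

open Classical in
/-- smooth parts and Euler products, with a rate -/
theorem smooth_rate (s : Finset ℕ) (hs : ∀ p ∈ s, p.Prime) (N : ℕ) (hN : 1 ≤ N) (f : ℕ →* ℂ)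
    (hf : ∀ n, ‖f n‖ ≤ 1 / (n : ℝ)) :
      ‖∑ n ∈ (Icc 1 N).filter (fun n => n ∈ Nat.factoredNumbers s), f n -
        ∏ p ∈ s, (1 - f p)⁻¹‖ ≤ 4 ^ #s / Real.sqrt N := by
  set F := Nat.factoredNumbers s with hF
  have hN0 : (0 : ℝ) < N := by exact_mod_cast hN
  let g0 : ℕ →* ℝ :=
    { toFun := fun n => (Real.sqrt n)⁻¹
      map_one' := by simp
      map_mul' := fun a b => by
        push_cast
        rw [Real.sqrt_mul (Nat.cast_nonneg _), mul_inv] }
  have hsqrt : ∀ {p : ℕ}, p.Prime → (1 : ℝ) < Real.sqrt p := by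
    intro p hp
    rw [Real.lt_sqrt (by norm_num)]
    have : (1 : ℝ) < p := by exact_mod_cast hp.one_lt
    linarith
  have hg0 : ∀ {p : ℕ}, p.Prime → ‖g0 p‖ < 1 := by
    intro p hp
    change ‖(Real.sqrt p)⁻¹‖ < 1
    rw [norm_inv, Real.norm_eq_abs, abs_of_nonneg (Real.sqrt_nonneg _)]
    exact inv_lt_one_of_one_lt₀ (hsqrt hp)
  have hEP := EulerProduct.summable_and_hasSum_factoredNumbers_prod_filter_prime_geometric
    (f := g0) hg0 s
  have hsf : (s.filter Nat.Prime) = s := filter_true_of_mem hs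
  rw [hsf] at hEP
  set g : ℕ → ℝ := Set.indicator F (fun n => (Real.sqrt n)⁻¹) with hgdef
  have hgs : HasSum g (∏ p ∈ s, (1 - g0 p)⁻¹) := hasSum_subtype_iff_indicator.mp hEP.2
  have hgnn : ∀ n, 0 ≤ g n := by
    intro n
    rw [hgdef, Set.indicator_apply]
    split_ifs <;> positivity
  have hprod : ∏ p ∈ s, (1 - g0 p)⁻¹ ≤ 4 ^ #s := by
    rw [← prod_const]
    apply Finset.prod_le_prod
    · intro p hp
      have h1 : g0 p = (Real.sqrt p)⁻¹ := rfl
      have h2 : (Real.sqrt p)⁻¹ < 1 := inv_lt_one_of_one_lt₀ (hsqrt (hs p hp))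
      rw [h1, inv_nonneg]
      linarith
    · intro p hp
      have h1 : g0 p = (Real.sqrt p)⁻¹ := rfl
      have h2 : (4 / 3 : ℝ) ≤ Real.sqrt p := by
        apply Real.le_sqrt_of_sq_le
        have : (2 : ℝ) ≤ p := by exact_mod_cast (hs p hp).two_le
        norm_num
        linarith
      have h3 : (Real.sqrt p)⁻¹ ≤ 3 / 4 := by
        rw [inv_le_comm₀ (by linarith) (by norm_num)]
        norm_num
        linarith
      rw [h1, inv_le_comm₀ (by linarith) (by norm_num)]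
      norm_num
      linarith
  have hf1 : ∀ {p : ℕ}, p.Prime → ‖f p‖ < 1 := by
    intro p hp
    have h2 : (1 : ℝ) < p := by exact_mod_cast hp.one_lt
    refine (hf p).trans_lt ?_
    rw [one_div]
    exact inv_lt_one_of_one_lt₀ h2
  have h1 := (EulerProduct.summable_and_hasSum_factoredNumbers_prod_filter_prime_geometric
    (f := f) hf1 s).2
  rw [hsf] at h1
  have h2 : HasSum (Set.indicator F (fun n => f n)) (∏ p ∈ s, (1 - f p)⁻¹) :=
    hasSum_subtype_iff_indicator.mp h1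
  have h3 : ∑ n ∈ (Icc 1 N).filter (fun n => n ∈ F), f n =
      ∑ n ∈ range (N + 1), Set.indicator F (fun n => f n) n := by
    rw [sum_filter]
    have : range (N + 1) = insert 0 (Icc 1 N) := by
      ext n; simp; omega
    rw [this, sum_insert (by simp)]
    have h0 : Set.indicator F (fun n => f n) 0 = 0 := by
      apply Set.indicator_of_notMem
      intro h
      exact h.1 rfl
    rw [h0, zero_add]
    apply sum_congr rfl
    intro n _
    rw [Set.indicator_apply]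
  rw [h3]
  have h4 := h2.summable.sum_add_tsum_nat_add (N + 1)
  rw [h2.tsum_eq] at h4
  have h5 : ∑ n ∈ range (N + 1), Set.indicator F (fun n => f n) n - ∏ p ∈ s, (1 - f p)⁻¹ =
      - ∑' i, Set.indicator F (fun n => f n) (i + (N + 1)) := by
    rw [← h4]; ring
  rw [h5, norm_neg]
  have hgs' : Summable (fun i => g (i + (N + 1))) := (summable_nat_add_iff (N + 1)).mpr hgs.summable
  have hsN : 0 < Real.sqrt N := Real.sqrt_pos.mpr hN0
  have h6 : ‖∑' i, Set.indicator F (fun n => f n) (i + (N + 1))‖ ≤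
      ∑' i, g (i + (N + 1)) * (Real.sqrt N)⁻¹ := by
    apply tsum_of_norm_bounded (hgs'.mul_right _).hasSum
    intro i
    rw [hgdef, Set.indicator_apply, Set.indicator_apply]
    split_ifs
    · refine (hf _).trans ?_
      have h7 : Real.sqrt N ≤ Real.sqrt ((i + (N + 1) : ℕ) : ℝ) := by
        apply Real.sqrt_le_sqrt
        exact_mod_cast (by omega : N ≤ i + (N + 1))
      have h8 : 0 < Real.sqrt ((i + (N + 1) : ℕ) : ℝ) := lt_of_lt_of_le hsN h7
      rw [← mul_inv, one_div]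
      apply inv_anti₀ (by positivity)
      calc Real.sqrt ((i + (N + 1) : ℕ) : ℝ) * Real.sqrt N ≤
            Real.sqrt ((i + (N + 1) : ℕ) : ℝ) * Real.sqrt ((i + (N + 1) : ℕ) : ℝ) :=
            mul_le_mul_of_nonneg_left h7 h8.le
        _ = _ := Real.mul_self_sqrt (Nat.cast_nonneg _)
    · simp
  refine h6.trans ?_
  rw [tsum_mul_right, div_eq_mul_inv]
  apply mul_le_mul_of_nonneg_right _ (by positivity)
  have h9 := hgs.summable.sum_add_tsum_nat_add (N + 1)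
  rw [hgs.tsum_eq] at h9
  have h10 : 0 ≤ ∑ n ∈ range (N + 1), g n := sum_nonneg fun n _ => hgnn n
  linarith

/-- the gap, with its dependence on the prime -/
lemma gap_rate (h : ℕ) (hh : 0 < h) (ζ : ℂ) (hζ : IsPrimitiveRoot ζ (2 * h)) :
    ∃ g : ℝ, 0 < g ∧ g ≤ 1 ∧ ∀ q : ℕ, q.Prime → ∀ δ : ℝ, 0 < δ → δ * q ≤ g → ∀ r : Fin h,
      (1 + δ) * (‖1 - rt ζ h (r, false) / q‖ ^ 2)⁻¹ ≤ (‖1 - rt ζ h (r, true) / q‖ ^ 2)⁻¹ ∨
      (1 + δ) * (‖1 - rt ζ h (r, true) / q‖ ^ 2)⁻¹ ≤ (‖1 - rt ζ h (r, false) / q‖ ^ 2)⁻¹ := by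
  have hnorm : ∀ u : ℂ, ‖u‖ = 1 → ∀ q : ℝ, 0 < q →
      ‖1 - u / q‖ ^ 2 = 1 - 2 * u.re / q + 1 / q ^ 2 := by
    intro u hu q hq
    have h2 : u.re ^ 2 + u.im ^ 2 = 1 := by
      have := Complex.sq_norm u
      rw [hu, Complex.normSq_apply] at this
      nlinarith
    rw [Complex.sq_norm, Complex.normSq_apply]
    simp only [Complex.sub_re, Complex.one_re, Complex.sub_im, Complex.one_im,
      Complex.div_ofReal_re, Complex.div_ofReal_im]
    field_simp
    nlinarith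
  have hζh : ζ ^ h = -1 := by
    have h3 : (ζ ^ h) ^ 2 = 1 := by rw [← pow_mul, mul_comm, hζ.pow_eq_one]
    rcases mul_self_eq_one_iff.mp ((sq _).symm.trans h3) with h4 | h4
    · exfalso
      have := (hζ.pow_eq_one_iff_dvd h).mp h4
      have := Nat.le_of_dvd hh this
      omega
    · exact h4
  have hzh : ∀ r : Fin h, rt ζ h (r, false) ^ h = 1 := by
    intro r
    unfold rt
    rw [← pow_mul]
    simp only [Bool.false_eq_true, if_false, add_zero]
    rw [show 2 * (r : ℕ) * h = 2 * h * r by ring, pow_mul, hζ.pow_eq_one, one_pow]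
  have hwh : ∀ r : Fin h, rt ζ h (r, true) ^ h = -1 := by
    intro r
    unfold rt
    rw [← pow_mul]
    simp only [if_true]
    rw [show (2 * (r : ℕ) + 1) * h = 2 * h * r + h by ring, pow_add, pow_mul, hζ.pow_eq_one,
      one_pow, one_mul, hζh]
  have hz1 : ∀ z : Fin h × Bool, ‖rt ζ h z‖ = 1 := fun z =>
    norm_of_pow (2 * h) (by omega) _ (rt_pow ζ h hζ z)
  have hre : ∀ r : Fin h, 0 < |(rt ζ h (r, false)).re - (rt ζ h (r, true)).re| := by
    intro r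
    rw [abs_pos]
    intro h0
    have h1 := dist_ne h hh _ _ (hzh r) (hwh r) 1 one_pos
    rw [hnorm _ (hz1 _) 1 one_pos, hnorm _ (hz1 _) 1 one_pos] at h1
    apply h1
    rw [sub_eq_zero.mp h0]
  -- the minimum of the differences
  obtain ⟨g0, hg0, hg0'⟩ : ∃ g0 : ℝ, 0 < g0 ∧ ∀ r : Fin h,
      g0 ≤ |(rt ζ h (r, false)).re - (rt ζ h (r, true)).re| := by
    have hne : (univ : Finset (Fin h)).Nonempty := ⟨⟨0, hh⟩, mem_univ _⟩
    refine ⟨univ.inf' hne (fun r => |(rt ζ h (r, false)).re - (rt ζ h (r, true)).re|), ?_, ?_⟩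
    · rw [lt_inf'_iff]
      exact fun r _ => hre r
    · exact fun r => inf'_le _ (mem_univ r)
  refine ⟨min 1 (g0 / 2), lt_min one_pos (by positivity), min_le_left _ _, ?_⟩
  intro q hq δ hδ hδq r
  have hq0 : (0 : ℝ) < q := by exact_mod_cast hq.pos
  have hq2 : (2 : ℝ) ≤ q := by exact_mod_cast hq.two_le
  have hδg : δ * q ≤ g0 / 2 := hδq.trans (min_le_right _ _)
  have hval : ∀ z : Fin h × Bool, ‖1 - rt ζ h z / (q : ℂ)‖ ^ 2 =
      1 - 2 * (rt ζ h z).re / q + 1 / (q : ℝ) ^ 2 := by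
    intro z
    have := hnorm _ (hz1 z) q hq0
    rw [← this]
    norm_cast
  have hrebd : ∀ z : Fin h × Bool, |(rt ζ h z).re| ≤ 1 := by
    intro z
    refine (Complex.abs_re_le_norm _).trans ?_
    rw [hz1]
  have key : ∀ z w : Fin h × Bool, g0 ≤ (rt ζ h z).re - (rt ζ h w).re →
      (1 + δ) * (‖1 - rt ζ h w / (q : ℂ)‖ ^ 2)⁻¹ ≤ (‖1 - rt ζ h z / (q : ℂ)‖ ^ 2)⁻¹ := by
    intro z w hzw
    rw [hval z, hval w]
    have hz := abs_le.mp (hrebd z)
    have hw := abs_le.mp (hrebd w)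
    have e1 : 1 - 2 * (rt ζ h z).re / q + 1 / (q : ℝ) ^ 2 =
        (q ^ 2 - 2 * (rt ζ h z).re * q + 1) / q ^ 2 := by field_simp
    have e2 : 1 - 2 * (rt ζ h w).re / q + 1 / (q : ℝ) ^ 2 =
        (q ^ 2 - 2 * (rt ζ h w).re * q + 1) / q ^ 2 := by field_simp
    rw [e1, e2, inv_div, inv_div]
    have p1 : 0 < (q : ℝ) ^ 2 - 2 * (rt ζ h z).re * q + 1 := by nlinarith
    have p2 : 0 < (q : ℝ) ^ 2 - 2 * (rt ζ h w).re * q + 1 := by nlinarith
    rw [← mul_div_assoc, div_le_div_iff₀ p2 p1]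
    have p3 : (1 + δ) * ((q : ℝ) ^ 2 - 2 * (rt ζ h z).re * q + 1) ≤
        (q : ℝ) ^ 2 - 2 * (rt ζ h w).re * q + 1 := by
      have p4 : (q : ℝ) ^ 2 - 2 * (rt ζ h z).re * q + 1 ≤ 4 * q ^ 2 := by nlinarith
      have p5 : δ * ((q : ℝ) ^ 2 - 2 * (rt ζ h z).re * q + 1) ≤ δ * (4 * q ^ 2) :=
        mul_le_mul_of_nonneg_left p4 hδ.le
      have p6 : δ * (4 * (q : ℝ) ^ 2) = 4 * q * (δ * q) := by ring
      have p7 : 4 * (q : ℝ) * (δ * q) ≤ 4 * q * (g0 / 2) :=
        mul_le_mul_of_nonneg_left hδg (by positivity)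
      nlinarith
    nlinarith [mul_le_mul_of_nonneg_left p3 (sq_nonneg (q : ℝ))]
  rcases le_abs'.mp (hg0' r) with h1 | h1
  · left
    apply key
    linarith
  · right
    apply key
    linarith

end Pool.Agent.K1H92.RB
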