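import Mathlib
import Pool.Agent.R361.AC.Main
import Pool.Agent.K1H92.RB.Tail

set_option autoImplicit false

/-! # The quantitative anti-concentration theorem -/

namespace Pool.Agent.K1H92.RB

open Finset Filter Topology
open Pool.Agent.R361.AC
open scoped ComplexConjugate

/-- many primes up to `m ^ 44` -/
lemma many_primes (Q : ℕ) (hQ : 0 < Q) : ∃ m0 : ℕ, ∀ m ≥ m0, ∃ K : Finset ℕ,
    #K = 2 * m ^ 42 ∧ ∀ q ∈ K, q.Prime ∧ ¬ q ∣ Q ∧ q ≤ m ^ 44 := by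
  have h1 : ∀ᶠ m : ℕ in atTop, Real.log m ≤ m / 1000 := by
    have h2 := Real.isLittleO_log_id_atTop.bound (show (0 : ℝ) < 1 / 1000 by norm_num)
    have h3 := (tendsto_natCast_atTop_atTop (R := ℝ)).eventually h2
    filter_upwards [h3, eventually_ge_atTop 1] with m hm hm1
    have hm1' : (1 : ℝ) ≤ m := by exact_mod_cast hm1
    have h4 : 0 ≤ Real.log m := Real.log_nonneg hm1'
    rw [Real.norm_eq_abs, abs_of_nonneg h4] at hm
    simp only [id_eq, Real.norm_eq_abs] at hm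
    rw [abs_of_nonneg (by linarith)] at hm
    linarith
  obtain ⟨m1, hm1⟩ := eventually_atTop.mp h1
  refine ⟨max m1 (Q + 10), fun m hm => ?_⟩
  have hmm1 : m1 ≤ m := le_trans (le_max_left _ _) hm
  have hmQ : Q + 10 ≤ m := le_trans (le_max_right _ _) hm
  have hlog := hm1 m hmm1
  have hm10 : (10 : ℝ) ≤ m := by exact_mod_cast (by omega : 10 ≤ m)
  have hlogpos : 0 < Real.log m := Real.log_pos (by linarith)
  have hpi := Chebyshev.pi_ge (m ^ 44)
  push_cast at hpi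
  rw [Real.log_pow] at hpi
  push_cast at hpi
  have hl2 : 0.69 < Real.log 2 := by have := Real.log_two_gt_d9; linarith
  have h44 : (1 : ℝ) ≤ (m : ℝ) ^ 44 := one_le_pow₀ (by linarith)
  have hle : Real.log ((m : ℝ) ^ 44 + 1) ≤ 45 * Real.log m := by
    have : (m : ℝ) ^ 44 + 1 ≤ (m : ℝ) ^ 45 := by
      have : (m : ℝ) ^ 45 = (m : ℝ) ^ 44 * m := by ring
      nlinarith
    calc Real.log ((m : ℝ) ^ 44 + 1) ≤ Real.log ((m : ℝ) ^ 45) :=
          Real.log_le_log (by positivity) this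
      _ = 45 * Real.log m := by rw [Real.log_pow]; norm_num
  have hbig : (3 * (m : ℝ) ^ 42) ≤ (m ^ 44).primeCounting := by
    refine le_trans ?_ hpi
    rw [le_div_iff₀ (by positivity)]
    have h5 : 3 * (m : ℝ) ^ 42 * (44 * Real.log m) ≤ 3 * (m : ℝ) ^ 42 * (44 * (m / 1000)) := by
      gcongr
    have h6 : 3 * (m : ℝ) ^ 42 * (44 * (m / 1000)) = 132 / 1000 * (m : ℝ) ^ 43 := by ring
    have h7 : (m : ℝ) ^ 43 * 10 ≤ (m : ℝ) ^ 44 := by
      have : (m : ℝ) ^ 44 = (m : ℝ) ^ 43 * m := by ring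
      rw [this]
      exact mul_le_mul_of_nonneg_left hm10 (by positivity)
    have h8 : (m : ℝ) ≤ (m : ℝ) ^ 43 := le_self_pow₀ (by linarith) (by norm_num)
    have h9 : 0.69 * (m : ℝ) ^ 44 ≤ (m : ℝ) ^ 44 * Real.log 2 := by
      rw [mul_comm]
      exact mul_le_mul_of_nonneg_left hl2.le (by positivity)
    nlinarith
  have hbig' : 3 * m ^ 42 ≤ (m ^ 44).primeCounting := by exact_mod_cast hbig
  have hQ42 : Q ≤ m ^ 42 := by
    calc Q ≤ m := by omega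
      _ ≤ m ^ 42 := Nat.le_self_pow (by norm_num) m
  set P := (m ^ 44).primesLE.filter (fun q => ¬ q ∣ Q) with hP
  have hPc : 2 * m ^ 42 ≤ #P := by
    have h10 : #((m ^ 44).primesLE.filter (fun q => q ∣ Q)) ≤ Q := by
      calc #((m ^ 44).primesLE.filter (fun q => q ∣ Q)) ≤ #(Icc 1 Q) := by
            apply card_le_card
            intro q hq
            rw [mem_filter] at hq
            rw [mem_Icc]
            exact ⟨(Nat.prime_of_mem_primesLE hq.1).one_le, Nat.le_of_dvd hQ hq.2⟩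
        _ = Q := by simp
    have h11 := card_filter_add_card_filter_not (s := (m ^ 44).primesLE) (fun q => q ∣ Q)
    rw [Nat.primesLE_card_eq_primeCounting] at h11
    have h12 : #P = #((m ^ 44).primesLE.filter (fun q => ¬ q ∣ Q)) := by rw [hP]
    rw [← h12] at h11
    omega
  obtain ⟨K, hK, hKc⟩ := exists_subset_card_eq hPc
  refine ⟨K, hKc, fun q hq => ?_⟩
  have := hK hq
  rw [hP, mem_filter] at this
  exact ⟨Nat.prime_of_mem_primesLE this.1, this.2, Nat.le_of_mem_primesLE this.1⟩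

lemma binom_rate (m : ℕ) : (((2 * m ^ 42).choose (m ^ 42) : ℕ) : ℝ) * (m : ℝ) ^ 21 ≤
    2 ^ (2 * m ^ 42) := by
  have h1 := central_sq (m ^ 42)
  rw [Nat.centralBinom_eq_two_mul_choose] at h1
  have h2 : (((2 * m ^ 42).choose (m ^ 42) : ℕ) : ℝ) ^ 2 * (2 * (m : ℝ) ^ 42 + 1) ≤
      16 ^ (m ^ 42) := by exact_mod_cast h1
  have h3 : ((((2 * m ^ 42).choose (m ^ 42) : ℕ) : ℝ) * (m : ℝ) ^ 21) ^ 2 ≤
      ((2 : ℝ) ^ (2 * m ^ 42)) ^ 2 := by
    have e1 : ((2 : ℝ) ^ (2 * m ^ 42)) ^ 2 = 16 ^ (m ^ 42) := by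
      rw [← pow_mul, show 2 * m ^ 42 * 2 = 4 * m ^ 42 by ring, pow_mul]
      norm_num
    rw [e1, mul_pow, ← pow_mul]
    refine le_trans ?_ h2
    apply mul_le_mul_of_nonneg_left _ (sq_nonneg _)
    have : (0 : ℝ) ≤ (m : ℝ) ^ 42 := by positivity
    norm_num
    linarith
  exact (abs_le_of_sq_le_sq' h3 (by positivity)).2

open Classical in
/-- **Quantitative anti-concentration.** -/
theorem core {ι : Type*} (h : ℕ) (hh : 0 < h) (ζ : ℂ) (hζ : IsPrimitiveRoot ζ (2 * h))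
    (Q : ℕ) (hQ : 0 < Q) (Ψ : ι → ℕ →*₀ ℂ)
    (hΨ : ∀ a q, q.Prime → Ψ a q = 0 ∨ (Ψ a q) ^ (2 * h) = 1)
    (hΨQ : ∀ a q, q.Prime → q ∣ Q → Ψ a q = 0)
    (C : ℝ) (hC0 : 0 < C)
    (T : Set ℝ) (t0 : ℝ) (ht0 : 0 < t0) (hT0 : ∀ t ∈ T, t0 ≤ t) (CT : ℝ) (hCT : 0 < CT)
    (hTf : ∀ R : ℝ, 1 ≤ R → ∃ F : Finset ℝ, (∀ t ∈ T, t ≤ R → t ∈ F) ∧ (#F : ℝ) ≤ CT * R) :
    ∃ c0 : ℝ, 0 < c0 ∧ ∃ C' : ℝ, 0 < C' ∧ ∃ m0 : ℕ, ∀ m ≥ m0, ∀ (A : Finset ι) (W : ι → ℝ),
      (∀ a, 0 ≤ W a) → ∀ N : ℕ, 16 ^ (2 * h * m ^ 100) ≤ N → ∀ M e : ℝ, 0 < M → 0 ≤ e →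
      ∑ a ∈ A, W a ≤ C * M → (2 * h : ℝ) ^ (m ^ 100) * e ≤ M →
      (1 + Real.log N) ^ 2 * e * (m : ℝ) ^ 98 ≤ M →
      (∀ n n', 1 ≤ n → n ≤ N → 1 ≤ n' → n' ≤ N → n.Coprime Q → n'.Coprime Q →
        (∃ q, q.Prime ∧ ¬ n.factorization q ≡ n'.factorization q [MOD 2 * h]) →
        ‖∑ a ∈ A, (W a : ℂ) * Ψ a n * conj (Ψ a n')‖ ≤ e) →
      ∀ η : ℝ, η * (m : ℝ) ^ 44 ≤ c0 →
      (∑ a ∈ A.filter (fun a => (∀ q, q.Prime → ¬ q ∣ Q → q ≤ m ^ 100 → Ψ a q ≠ 0) ∧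
        ∃ t ∈ T, |‖∑ n ∈ Icc 1 N, Ψ a n / n‖ ^ 2 - t| ≤ η), W a) * (m : ℝ) ^ 10 ≤ C' * M := by
  obtain ⟨C2, hC2, hC2'⟩ : ∃ C2 : ℝ, 0 < C2 ∧ ∀ N : ℕ,
      ∑ m ∈ Ioc 0 N, ((m * m).divisors.card : ℝ) / ((m : ℝ) * m) ≤ C2 := by
    refine ⟨(∑' m : ℕ, ((m * m).divisors.card : ℝ) / ((m : ℝ) * m)) + 1, ?_, fun N => ?_⟩
    · have : 0 ≤ ∑' m : ℕ, ((m * m).divisors.card : ℝ) / ((m : ℝ) * m) :=
        tsum_nonneg fun m => by positivity
      linarith
    · have := summable_tausq.sum_le_tsum (Ioc 0 N) (fun m _ => by positivity)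
      linarith
  obtain ⟨C3, hC3, hC3'⟩ := tausq_rate (1 / 100) (by norm_num) (by norm_num)
  obtain ⟨g, hg0, hg1, hgap⟩ := gap_rate h hh ζ hζ
  obtain ⟨m1, hm1⟩ := many_primes Q hQ
  set c1 : ℝ := t0 / (2 * (3 + t0)) with hc1
  have hc10 : 0 < c1 := by positivity
  have hc11 : c1 ≤ 1 / 2 := by
    rw [hc1, div_le_iff₀ (by positivity)]; linarith
  -- the size of `m`
  have hev : ∀ᶠ m : ℕ in atTop, (m : ℝ) ^ 44 / 4 ^ m < c1 * g / 16 := by
    have := tendsto_pow_const_div_const_pow_of_one_lt 44 (show (1 : ℝ) < 4 by norm_num)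
    exact this.eventually_lt_const (by positivity)
  obtain ⟨m2, hm2⟩ := eventually_atTop.mp hev
  set c0 : ℝ := min 1 (g * t0 / 16) with hc0
  have hc00 : 0 < c0 := lt_min one_pos (by positivity)
  set C' : ℝ := (C2 * C + 1) + 256 * (C3 * C + 1) / (c1 ^ 2 * g ^ 2) + 2 * CT * (C + 1) with hC'
  refine ⟨c0, hc00, C', by positivity, max (max m1 m2) 1, ?_⟩
  intro m hm A W hW N hN M e hM he hWC he3 he2 hcorr η hη
  have hmm1 : m1 ≤ m := le_trans (le_trans (le_max_left _ _) (le_max_left _ _)) hm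
  have hmm2 : m2 ≤ m := le_trans (le_trans (le_max_right _ _) (le_max_left _ _)) hm
  have hm1' : 1 ≤ m := le_trans (le_max_right _ _) hm
  have hmR : (1 : ℝ) ≤ m := by exact_mod_cast hm1'
  have hm0 : (0 : ℝ) < m := by linarith
  obtain ⟨K, hKc, hK⟩ := hm1 m hmm1
  set y : ℕ := m ^ 100 with hy
  have hy1 : 1 ≤ y := Nat.one_le_pow _ _ hm1'
  set δ0 : ℝ := g / (m : ℝ) ^ 44 with hδ0
  have hδ00 : 0 < δ0 := by positivity
  have hm44 : (1 : ℝ) ≤ (m : ℝ) ^ 44 := one_le_pow₀ hmR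
  have hδ01 : δ0 ≤ 1 := by
    rw [hδ0, div_le_iff₀ (by positivity)]; linarith
  set θ0 : ℝ := δ0 / 8 with hθ0
  have hθ00 : 0 < θ0 := by positivity
  have hθδ : 1 + θ0 < (1 + δ0) * (1 - θ0) := by rw [hθ0]; nlinarith
  have hη1 : η ≤ 1 := by
    by_contra hcon
    push Not at hcon
    have h1 : c0 ≤ 1 := min_le_left _ _
    nlinarith
  have hη2 : η ≤ θ0 * t0 / 2 := by
    have h1 : c0 ≤ g * t0 / 16 := min_le_right _ _
    have h2 : η ≤ (g * t0 / 16) / (m : ℝ) ^ 44 := by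
      rw [le_div_iff₀ (by positivity)]
      linarith
    refine h2.trans (le_of_eq ?_)
    rw [hθ0, hδ0]
    field_simp
    norm_num
  set η' : ℝ := c1 * θ0 with hη'
  have hη'0 : 0 < η' := by positivity
  have hη'1 : η' ≤ 1 := by
    rw [hη', hθ0]; nlinarith
  set s := (Icc 1 y).filter (fun q => q.Prime ∧ ¬ q ∣ Q) with hs
  have hsp : ∀ q ∈ s, q.Prime := fun q hq => (mem_filter.mp hq).2.1
  have hsQ : ∀ q ∈ s, ¬ q ∣ Q := fun q hq => (mem_filter.mp hq).2.2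
  have hKs : K ⊆ s := by
    intro q hq
    rw [hs, mem_filter, mem_Icc]
    refine ⟨⟨(hK q hq).1.one_le, (hK q hq).2.2.trans ?_⟩, (hK q hq).1, (hK q hq).2.1⟩
    exact Nat.pow_le_pow_right hm1' (by norm_num)
  have hsc : #s ≤ y := by
    calc #s ≤ #(Icc 1 y) := card_filter_le _ _
      _ = y := by simp
  have hN1 : 1 ≤ N := le_trans (Nat.one_le_pow _ _ (by norm_num)) hN
  have hN0 : (0 : ℝ) < N := by exact_mod_cast hN1
  -- the smooth part
  have hsmooth : (4 : ℝ) ^ #s / Real.sqrt N ≤ η' / 2 := by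
    have h1 : (16 : ℝ) ^ y ≤ Real.sqrt N := by
      apply Real.le_sqrt_of_sq_le
      have h2 : 16 ^ (2 * 1 * y) ≤ N := by
        refine le_trans (Nat.pow_le_pow_right (by norm_num) ?_) hN
        exact Nat.mul_le_mul_right _ (Nat.mul_le_mul_left _ hh)
      have h3 : ((16 ^ (2 * 1 * y) : ℕ) : ℝ) ≤ N := by exact_mod_cast h2
      push_cast at h3
      rw [← pow_mul, mul_comm y 2]
      exact h3
    have h4 : (4 : ℝ) ^ #s ≤ 4 ^ y := pow_le_pow_right₀ (by norm_num) hsc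
    have h5 : (4 : ℝ) ^ #s / Real.sqrt N ≤ 4 ^ y / 16 ^ y :=
      div_le_div₀ (by positivity) h4 (by positivity) h1
    have h6 : (4 : ℝ) ^ y / 16 ^ y = 1 / 4 ^ y := by
      rw [show (16 : ℝ) = 4 * 4 by norm_num, mul_pow]
      field_simp
    have h7 : (4 : ℝ) ^ m ≤ 4 ^ y := pow_le_pow_right₀ (by norm_num) (Nat.le_self_pow (by norm_num) m)
    have h8 : (1 : ℝ) / 4 ^ y ≤ 1 / 4 ^ m := one_div_le_one_div_of_le (by positivity) h7
    have h9 := hm2 m hmm2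
    rw [div_lt_iff₀ (by positivity)] at h9
    rw [h6] at h5
    refine h5.trans (h8.trans ?_)
    rw [hη', hθ0, hδ0]
    have h10 : c1 * (g / (m : ℝ) ^ 44 / 8) / 2 = (c1 * g / 16) / (m : ℝ) ^ 44 := by
      field_simp
      norm_num
    rw [h10, div_le_div_iff₀ (by positivity) (by positivity), one_mul]
    exact h9.le
  have hNs : ∏ q ∈ s, q ^ (2 * h) ≤ N := by
    rw [prod_pow]
    have h1 : ∏ q ∈ s, q ≤ 4 ^ y := by
      refine le_trans ?_ (primorial_le_four_pow y)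
      unfold primorial
      apply prod_le_prod_of_subset_of_one_le'
      · intro q hq
        rw [hs, mem_filter, mem_Icc] at hq
        rw [mem_filter, mem_range]
        exact ⟨by omega, hq.2.1⟩
      · intro q hq _
        exact (mem_filter.mp hq).2.one_le
    calc (∏ q ∈ s, q) ^ (2 * h) ≤ (4 ^ y) ^ (2 * h) := Nat.pow_le_pow_left h1 _
      _ ≤ (16 ^ y) ^ (2 * h) := Nat.pow_le_pow_left (Nat.pow_le_pow_left (by norm_num) _) _
      _ = 16 ^ (2 * h * y) := by rw [← pow_mul]; congr 1; ring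
      _ ≤ N := hN
  have hlog : 0 ≤ Real.log N := Real.log_natCast_nonneg _
  have h2h : (1 : ℝ) ≤ 2 * h := by
    have : (1 : ℝ) ≤ h := by exact_mod_cast hh
    linarith
  have he3' : (2 * h : ℝ) ^ #s * e ≤ M := by
    refine le_trans ?_ he3
    exact mul_le_mul_of_nonneg_right (pow_le_pow_right₀ h2h hsc) he
  have hm98 : (1 : ℝ) ≤ (m : ℝ) ^ 98 := one_le_pow₀ hmR
  have he1 : (1 + Real.log N) ^ 2 * e ≤ M := by
    refine le_trans ?_ he2
    exact le_mul_of_one_le_right (by positivity) hm98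
  set WT := ∑ a ∈ A, W a with hWT
  have hWT0 : 0 ≤ WT := sum_nonneg fun a _ => hW a
  -- the sets
  set D : ι → ℂ := fun a => ∑ n ∈ Icc 1 N, Ψ a n / n with hD
  set E : ι → ℂ := fun a => ∏ q ∈ s, (1 - Ψ a q / q)⁻¹ with hE
  set S0 := (Icc 1 N).filter (fun n => n.Coprime Q) with hS0
  set S1 := S0.filter (fun n => n ∉ Nat.factoredNumbers s) with hS1
  set V : ι → ℂ := fun a => ∑ n ∈ S1, Ψ a n / n with hV
  have hz : ∀ a n, ¬ n.Coprime Q → Ψ a n = 0 := fun a n hn' =>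
    zero_of_not_coprime (Ψ a) Q (hΨQ a) n hn'
  have hDS0 : ∀ a, D a = ∑ n ∈ S0, Ψ a n / n := by
    intro a
    simp only [hD, hS0]
    rw [sum_filter]
    apply sum_congr rfl
    intro m _
    split_ifs with h1
    · rfl
    · rw [hz a m h1, zero_div]
  have hDV : ∀ a, D a = (∑ n ∈ (Icc 1 N).filter (fun n => n ∈ Nat.factoredNumbers s),
      Ψ a n / n) + V a := by
    intro a
    rw [hDS0, hV]
    simp only
    rw [← sum_filter_add_sum_filter_not S0 (fun n => n ∈ Nat.factoredNumbers s)]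
    congr 1
    simp only [hS0]
    rw [filter_filter, sum_filter, sum_filter]
    apply sum_congr rfl
    intro m _
    by_cases h1 : m.Coprime Q
    · by_cases h2 : m ∈ Nat.factoredNumbers s
      · rw [if_pos ⟨h1, h2⟩, if_pos h2]
      · rw [if_neg (fun h => h2 h.2), if_neg h2]
    · rw [hz a m h1, zero_div, ite_self, ite_self]
  have hDE : ∀ a, ‖D a - E a‖ ≤ ‖V a‖ + η' / 2 := by
    intro a
    let f : ℕ →* ℂ :=
      { toFun := fun n => Ψ a n / n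
        map_one' := by simp
        map_mul' := fun m n => by push_cast; rw [map_mul]; rw [mul_div_mul_comm] }
    have h1 := smooth_rate s hsp N hN1 f (by
      intro m
      change ‖Ψ a m / m‖ ≤ _
      rw [norm_div, Complex.norm_natCast]
      exact div_le_div_of_nonneg_right (norm_le_one (Ψ a) (2 * h) (by omega) (hΨ a) m)
        (Nat.cast_nonneg _))
    have h2 : D a - E a = V a + ((∑ n ∈ (Icc 1 N).filter
        (fun n => n ∈ Nat.factoredNumbers s), f n) - ∏ p ∈ s, (1 - f p)⁻¹) := by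
      rw [hDV]
      change _ = V a + ((∑ n ∈ (Icc 1 N).filter
        (fun n => n ∈ Nat.factoredNumbers s), Ψ a n / n) - ∏ p ∈ s, (1 - Ψ a p / p)⁻¹)
      ring
    rw [h2]
    exact (norm_add_le _ _).trans (add_le_add le_rfl (h1.trans hsmooth))
  -- mean squares
  have hms0 : ∑ a ∈ A, W a * ‖D a‖ ^ 2 ≤ (C2 * C + 1) * M := by
    have h1 := ms_bound h hh Q Ψ hΨ A W hW N e he hcorr S0
      (filter_subset _ _) (fun n hn' => (mem_filter.mp hn').2) 0 (fun _ _ m _ hm => hm)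
    simp only [hDS0]
    refine h1.trans ?_
    have h2 : (∑ m ∈ Ioc 0 N, ((m * m).divisors.card : ℝ) / ((m : ℝ) * m)) * WT ≤
        C2 * (C * M) := mul_le_mul (hC2' _) hWC hWT0 hC2.le
    linarith
  have hms1 : (∑ a ∈ A, W a * ‖V a‖ ^ 2) * (m : ℝ) ^ 98 ≤ (C3 * C + 1) * M := by
    have h1 := ms_bound h hh Q Ψ hΨ A W hW N e he hcorr S1
      ((filter_subset _ _).trans (filter_subset _ _))
      (fun n hn' => (mem_filter.mp (mem_filter.mp hn').1).2) y ?_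
    · have h2 := mul_le_mul_of_nonneg_right h1 (show (0 : ℝ) ≤ (m : ℝ) ^ 98 by positivity)
      refine h2.trans ?_
      have h3 : (∑ m ∈ Ioc y N, ((m * m).divisors.card : ℝ) / ((m : ℝ) * m)) * (m : ℝ) ^ 98 ≤
          C3 := by
        have h4 := hC3' y hy1 N
        have h5 : (y : ℝ) ^ (-(1 - 2 * (1 / 100) : ℝ)) = ((m : ℝ) ^ 98)⁻¹ := by
          rw [hy]
          push_cast
          rw [← Real.rpow_natCast, ← Real.rpow_natCast, ← Real.rpow_mul hm0.le,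
            ← Real.rpow_neg hm0.le]
          congr 1
          norm_num
        rw [h5] at h4
        calc _ ≤ (C3 * ((m : ℝ) ^ 98)⁻¹) * (m : ℝ) ^ 98 :=
              mul_le_mul_of_nonneg_right h4 (by positivity)
          _ = C3 := by field_simp
      have h6 : ((∑ m ∈ Ioc y N, ((m * m).divisors.card : ℝ) / ((m : ℝ) * m)) * (m : ℝ) ^ 98) *
          WT ≤ C3 * (C * M) := mul_le_mul h3 hWC hWT0 hC3.le
      rw [add_mul]
      have e1 : (∑ m ∈ Ioc y N, ((m * m).divisors.card : ℝ) / ((m : ℝ) * m)) * WT *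
          (m : ℝ) ^ 98 = ((∑ m ∈ Ioc y N, ((m * m).divisors.card : ℝ) / ((m : ℝ) * m)) *
          (m : ℝ) ^ 98) * WT := by ring
      rw [e1]
      linarith
    · intro m hm k hk hk0
      rw [hS1, mem_filter, hS0, mem_filter, mem_Icc] at hm
      obtain ⟨⟨hm1, hm2⟩, hm3⟩ := hm
      rw [Nat.mem_factoredNumbers'] at hm3
      push Not at hm3
      obtain ⟨p, hp, hpm, hps⟩ := hm3
      have hpy : y < p := by
        by_contra hcon
        push Not at hcon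
        apply hps
        rw [hs, mem_filter, mem_Icc]
        refine ⟨⟨hp.one_le, hcon⟩, hp, fun hpQ => ?_⟩
        exact Nat.Prime.not_coprime_iff_dvd.mpr ⟨p, hp, hpm, hpQ⟩ hm2
      have h4 : p ∣ k * k := hpm.trans hk
      have h5 : p ∣ k := by
        rcases hp.dvd_mul.mp h4 with h | h <;> exact h
      exact lt_of_lt_of_le hpy (Nat.le_of_dvd hk0 h5)
  -- the targets
  set R : ℝ := (m : ℝ) ^ 11 with hR
  have hR1 : 1 ≤ R := one_le_pow₀ hmR
  have hR0 : 0 < R := by linarith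
  obtain ⟨TR, hTR, hTRc⟩ := hTf (R + 1) (by linarith)
  -- the three exceptional sets
  set B1 := A.filter (fun a => R ≤ ‖D a‖ ^ 2) with hB1
  set B2 := A.filter (fun a => (η' / 2) ^ 2 ≤ ‖V a‖ ^ 2) with hB2
  set B3 : ℝ → Finset ι := fun t => A.filter (fun a => (∀ q ∈ s, Ψ a q ≠ 0) ∧
      (1 - θ0) * t ≤ ‖E a‖ ^ 2 ∧ ‖E a‖ ^ 2 < (1 + δ0) * ((1 - θ0) * t)) with hB3
  have hb1 : (∑ a ∈ B1, W a) * (m : ℝ) ^ 10 ≤ (C2 * C + 1) * M := by
    have h1 := cheb A W hW (fun a => ‖D a‖ ^ 2) (fun a => sq_nonneg _) R B1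
      (filter_subset _ _) (fun a ha => (mem_filter.mp ha).2)
    have h2 := h1.trans hms0
    refine le_trans ?_ h2
    have h3 : 0 ≤ ∑ a ∈ B1, W a := sum_nonneg fun a _ => hW a
    rw [mul_comm]
    apply mul_le_mul_of_nonneg_right _ h3
    rw [hR]
    exact pow_le_pow_right₀ hmR (by norm_num)
  have hb2 : (∑ a ∈ B2, W a) * (m : ℝ) ^ 10 ≤ 256 * (C3 * C + 1) / (c1 ^ 2 * g ^ 2) * M := by
    have h1 := cheb A W hW (fun a => ‖V a‖ ^ 2) (fun a => sq_nonneg _)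
      ((η' / 2) ^ 2) B2 (filter_subset _ _) (fun a ha => (mem_filter.mp ha).2)
    have h2 := mul_le_mul_of_nonneg_right h1 (show (0 : ℝ) ≤ (m : ℝ) ^ 98 by positivity)
    have h3 := h2.trans hms1
    have e1 : (η' / 2) ^ 2 * (∑ a ∈ B2, W a) * (m : ℝ) ^ 98 =
        (c1 ^ 2 * g ^ 2 / 256) * ((∑ a ∈ B2, W a) * (m : ℝ) ^ 10) := by
      rw [hη', hθ0, hδ0]
      field_simp
      norm_num
      ring
    rw [e1] at h3
    have h4 : (0 : ℝ) < c1 ^ 2 * g ^ 2 / 256 := by positivity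
    rw [← mul_le_mul_iff_right₀ h4]
    refine h3.trans (le_of_eq ?_)
    field_simp
  have hb3 : ∀ t, (∑ a ∈ B3 t, W a) * (m : ℝ) ^ 21 ≤ (C + 1) * M := by
    intro t
    have h1 := pattern_count h hh ζ hζ Q Ψ hΨ A W hW N e he hcorr
      s hsp hsQ hNs K hKs δ0 hδ00 (by
        intro q hq r
        apply hgap q (hK q hq).1 δ0 hδ00 _ r
        rw [hδ0, div_mul_eq_mul_div, div_le_iff₀ (by positivity)]
        apply mul_le_mul_of_nonneg_left _ hg0.le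
        exact_mod_cast (hK q hq).2.2) ((1 - θ0) * t)
    rw [hKc] at h1
    have h2 : 2 * m ^ 42 / 2 = m ^ 42 := by omega
    rw [h2] at h1
    have h3 : WT + (2 * h : ℝ) ^ #s * e ≤ (C + 1) * M := by linarith
    have h4 : (0 : ℝ) < 2 ^ (2 * m ^ 42) := by positivity
    have h5 : (0 : ℝ) ≤ (2 * h : ℝ) ^ #s * e := by positivity
    have h6 := binom_rate m
    rw [← mul_le_mul_iff_left₀ h4]
    calc (∑ a ∈ B3 t, W a) * (m : ℝ) ^ 21 * 2 ^ (2 * m ^ 42) =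
          ((∑ a ∈ B3 t, W a) * 2 ^ (2 * m ^ 42)) * (m : ℝ) ^ 21 := by ring
      _ ≤ (((2 * m ^ 42).choose (m ^ 42) : ℝ) * (WT + (2 * h : ℝ) ^ #s * e)) * (m : ℝ) ^ 21 :=
          mul_le_mul_of_nonneg_right h1 (by positivity)
      _ = (((2 * m ^ 42).choose (m ^ 42) : ℝ) * (m : ℝ) ^ 21) *
            (WT + (2 * h : ℝ) ^ #s * e) := by ring
      _ ≤ 2 ^ (2 * m ^ 42) * ((C + 1) * M) := by
          apply mul_le_mul h6 h3 (by positivity) (by positivity)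
      _ = _ := by ring
  have hsub : A.filter (fun a => (∀ q, q.Prime → ¬ q ∣ Q → q ≤ y → Ψ a q ≠ 0) ∧
        ∃ t ∈ T, |‖D a‖ ^ 2 - t| ≤ η) ⊆ (B1 ∪ B2) ∪ TR.biUnion B3 := by
    intro a ha
    rw [mem_filter] at ha
    obtain ⟨haA, ha1, t, htT, ht⟩ := ha
    rw [mem_union, mem_union]
    by_cases h1 : R ≤ ‖D a‖ ^ 2
    · exact Or.inl (Or.inl (mem_filter.mpr ⟨haA, h1⟩))
    by_cases h2 : (η' / 2) ^ 2 ≤ ‖V a‖ ^ 2
    · exact Or.inl (Or.inr (mem_filter.mpr ⟨haA, h2⟩))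
    right
    push Not at h1 h2
    have hV1 : ‖V a‖ < η' / 2 := lt_of_pow_lt_pow_left₀ 2 (by positivity) h2
    have hDE1 : ‖D a - E a‖ ≤ η' := by linarith [hDE a]
    have htabs := abs_le.mp ht
    have htR : t ∈ TR := hTR t htT (by linarith [htabs.1])
    have ht0t := hT0 t htT
    have htp : 0 < t := by linarith
    have hE1 : |‖D a‖ - ‖E a‖| ≤ η' := (abs_norm_sub_norm_le _ _).trans hDE1
    have hE2 := abs_le.mp hE1
    have hD0 : 0 ≤ ‖D a‖ := norm_nonneg _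
    have hE0 : 0 ≤ ‖E a‖ := norm_nonneg _
    have hk3 : θ0 * t0 ≤ θ0 * t := mul_le_mul_of_nonneg_left ht0t hθ00.le
    have hkey : |‖E a‖ ^ 2 - t| ≤ θ0 * t := by
      have h5 : |‖E a‖ ^ 2 - ‖D a‖ ^ 2| ≤ η' * (3 + t) := by
        have : ‖E a‖ ^ 2 - ‖D a‖ ^ 2 = (‖E a‖ - ‖D a‖) * (‖E a‖ + ‖D a‖) := by ring
        rw [this, abs_mul]
        apply mul_le_mul
        · rw [abs_sub_comm]; exact hE1
        · rw [abs_of_nonneg (by positivity)]
          have h6 : 2 * ‖D a‖ ≤ 1 + ‖D a‖ ^ 2 := by nlinarith [sq_nonneg (‖D a‖ - 1)]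
          linarith [htabs.2, hE2.1]
        · exact abs_nonneg _
        · exact hη'0.le
      have h6 : η' * (3 + t) ≤ θ0 * t / 2 := by
        rw [hη', hc1]
        have h7 : t0 / (2 * (3 + t0)) * (3 + t) ≤ t / 2 := by
          rw [div_mul_eq_mul_div, div_le_iff₀ (by positivity)]
          nlinarith
        calc t0 / (2 * (3 + t0)) * θ0 * (3 + t) = θ0 * (t0 / (2 * (3 + t0)) * (3 + t)) := by ring
          _ ≤ θ0 * (t / 2) := mul_le_mul_of_nonneg_left h7 hθ00.le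
          _ = _ := by ring
      have h7 : ‖E a‖ ^ 2 - t = (‖E a‖ ^ 2 - ‖D a‖ ^ 2) + (‖D a‖ ^ 2 - t) := by ring
      rw [h7]
      refine (abs_add_le _ _).trans ?_
      linarith
    have hkey2 := abs_le.mp hkey
    have hk4 : (1 + θ0) * t < (1 + δ0) * (1 - θ0) * t := mul_lt_mul_of_pos_right hθδ htp
    rw [mem_biUnion]
    refine ⟨t, htR, ?_⟩
    rw [hB3, mem_filter]
    refine ⟨haA, ?_, ?_, ?_⟩
    · intro q hq
      rw [hs, mem_filter, mem_Icc] at hq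
      exact ha1 q hq.2.1 hq.2.2 hq.1.2
    · have : (1 - θ0) * t = t - θ0 * t := by ring
      rw [this]
      linarith [hkey2.1]
    · have e1 : (1 + θ0) * t = t + θ0 * t := by ring
      have e2 : (1 + δ0) * ((1 - θ0) * t) = (1 + δ0) * (1 - θ0) * t := by ring
      rw [e2]
      rw [e1] at hk4
      linarith [hkey2.2]
  have hfinal : ∑ a ∈ A.filter (fun a => (∀ q, q.Prime → ¬ q ∣ Q → q ≤ y → Ψ a q ≠ 0) ∧
        ∃ t ∈ T, |‖D a‖ ^ 2 - t| ≤ η), W a ≤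
      (∑ a ∈ B1, W a + ∑ a ∈ B2, W a) + ∑ t ∈ TR, ∑ a ∈ B3 t, W a := by
    refine (sum_le_sum_of_subset_of_nonneg hsub fun a _ _ => hW a).trans ?_
    have h1 := sum_union_inter (s₁ := B1 ∪ B2) (s₂ := TR.biUnion B3) (f := W)
    have h2 := sum_union_inter (s₁ := B1) (s₂ := B2) (f := W)
    have h3 : 0 ≤ ∑ b ∈ (B1 ∪ B2) ∩ TR.biUnion B3, W b := sum_nonneg fun b _ => hW b
    have h4 : 0 ≤ ∑ b ∈ B1 ∩ B2, W b := sum_nonneg fun b _ => hW b
    have h5 := sum_biUnion_le' TR B3 W hW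
    linarith
  have hlast : (∑ t ∈ TR, ∑ a ∈ B3 t, W a) * (m : ℝ) ^ 10 ≤ 2 * CT * (C + 1) * M := by
    have h1 : (∑ t ∈ TR, ∑ a ∈ B3 t, W a) * (m : ℝ) ^ 21 ≤ (#TR : ℝ) * ((C + 1) * M) := by
      rw [sum_mul, ← nsmul_eq_mul, ← sum_const]
      exact sum_le_sum fun t _ => hb3 t
    have h2 : (#TR : ℝ) ≤ 2 * CT * (m : ℝ) ^ 11 := by
      refine hTRc.trans ?_
      rw [← hR]
      nlinarith
    have h3 : (#TR : ℝ) * ((C + 1) * M) ≤ (2 * CT * (m : ℝ) ^ 11) * ((C + 1) * M) :=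
      mul_le_mul_of_nonneg_right h2 (by positivity)
    have h4 : (0 : ℝ) < (m : ℝ) ^ 11 := by positivity
    rw [← mul_le_mul_iff_left₀ h4]
    calc (∑ t ∈ TR, ∑ a ∈ B3 t, W a) * (m : ℝ) ^ 10 * (m : ℝ) ^ 11 =
          (∑ t ∈ TR, ∑ a ∈ B3 t, W a) * (m : ℝ) ^ 21 := by ring
      _ ≤ _ := h1.trans h3
      _ = _ := by ring
  have hm10 : (0 : ℝ) ≤ (m : ℝ) ^ 10 := by positivity
  refine (mul_le_mul_of_nonneg_right hfinal hm10).trans ?_
  rw [add_mul, add_mul, hC', add_mul, add_mul]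
  linarith

end Pool.Agent.K1H92.RB
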