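import Mathlib
import Pool.Agent.R361.AC.Count
import Pool.Agent.K1H92.RB.Core

set_option autoImplicit false

/-! # From weights to primes, with a rate -/

namespace Pool.Agent.K1H92.RB

open Finset Filter Topology
open Pool.Agent.R361.AC
open scoped ComplexConjugate

/-- the parameter: `m ^ 100` is about `log x / (400 h)` -/
noncomputable def mf (h x : ℕ) : ℕ := ⌊(Real.log x / (400 * h)) ^ (1 / 100 : ℝ)⌋₊

lemma mf_tendsto (h : ℕ) (hh : 0 < h) : Tendsto (mf h) atTop atTop := by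
  apply tendsto_nat_floor_atTop.comp
  have h1 : (0 : ℝ) < 400 * h := by positivity
  exact (tendsto_rpow_atTop (by norm_num : (0 : ℝ) < 1 / 100)).comp
    (tendsto_log_nat.atTop_div_const h1)

lemma mf_le (h x : ℕ) (hx : 0 ≤ Real.log x) :
    ((mf h x : ℕ) : ℝ) ^ 100 ≤ Real.log x / (400 * h) := by
  have h0 : 0 ≤ Real.log x / (400 * h) := by positivity
  have h1 : ((mf h x : ℕ) : ℝ) ≤ (Real.log x / (400 * h)) ^ (1 / 100 : ℝ) :=
    Nat.floor_le (by positivity)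
  calc ((mf h x : ℕ) : ℝ) ^ 100 ≤ ((Real.log x / (400 * h)) ^ (1 / 100 : ℝ)) ^ 100 :=
        pow_le_pow_left₀ (Nat.cast_nonneg _) h1 _
    _ = _ := by
        rw [← Real.rpow_natCast, ← Real.rpow_mul h0]
        norm_num

lemma mf_ge (h : ℕ) (hh : 0 < h) : ∃ c : ℝ, 0 < c ∧ ∀ᶠ x : ℕ in atTop,
    c * (Real.log x) ^ (1 / 10 : ℝ) ≤ ((mf h x : ℕ) : ℝ) ^ 10 := by
  have h1 : (0 : ℝ) < 400 * h := by positivity
  refine ⟨(1 / 2) ^ 10 / (400 * h) ^ (1 / 10 : ℝ), by positivity, ?_⟩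
  filter_upwards [tendsto_log_nat.eventually_ge_atTop (400 * h * 2 ^ 100),
    tendsto_log_nat.eventually_ge_atTop 1] with x hx hx1
  set u : ℝ := Real.log x / (400 * h) with hu
  have hu0 : 0 < u := by positivity
  have hu1 : 2 ^ 100 ≤ u := by
    rw [hu, le_div_iff₀ h1]
    linarith
  have h2 : 2 ≤ u ^ (1 / 100 : ℝ) := by
    have h3 : ((2 : ℝ) ^ 100) ^ (1 / 100 : ℝ) = 2 := by
      rw [← Real.rpow_natCast, ← Real.rpow_mul (by norm_num)]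
      norm_num
    rw [← h3]
    exact Real.rpow_le_rpow (by positivity) hu1 (by norm_num)
  have h4 : u ^ (1 / 100 : ℝ) < mf h x + 1 := Nat.lt_floor_add_one _
  have h5 : 1 / 2 * u ^ (1 / 100 : ℝ) ≤ mf h x := by linarith
  have h6 : (1 / 2 * u ^ (1 / 100 : ℝ)) ^ 10 ≤ ((mf h x : ℕ) : ℝ) ^ 10 :=
    pow_le_pow_left₀ (by positivity) h5 10
  refine le_trans (le_of_eq ?_) h6
  rw [mul_pow, ← Real.rpow_natCast (u ^ (1 / 100 : ℝ)), ← Real.rpow_mul hu0.le, hu,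
    show (1 / 100 : ℝ) * ((10 : ℕ) : ℝ) = 1 / 10 by norm_num,
    Real.div_rpow (by linarith) h1.le]
  ring

open Classical in
theorem bad_count {ι : Type*} (h : ℕ) (hh : 0 < h) (ζ : ℂ) (hζ : IsPrimitiveRoot ζ (2 * h))
    (Q : ℕ) (hQ : 0 < Q) (Ψ : ι → ℕ →*₀ ℂ)
    (hΨ : ∀ a q, q.Prime → Ψ a q = 0 ∨ (Ψ a q) ^ (2 * h) = 1)
    (hΨQ : ∀ a q, q.Prime → q ∣ Q → Ψ a q = 0)
    (A : ℕ → Finset ι) (W : ℕ → ι → ℝ) (hW : ∀ x a, 0 ≤ W x a)
    (N : ℕ → ℕ) (hN : ∀ᶠ x : ℕ in atTop, (x : ℝ) ^ (1 / 50 : ℝ) ≤ N x)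
    (C : ℝ) (hC0 : 0 < C) (hC : ∀ᶠ x : ℕ in atTop, ∑ a ∈ A x, W x a ≤ C * (x / Real.log x))
    (e : ℕ → ℝ) (he0 : ∀ x, 0 ≤ e x)
    (he2 : ∀ᶠ x : ℕ in atTop, (x : ℝ) ^ (1 / 200 : ℝ) * e x ≤ x / Real.log x)
    (he : ∀ᶠ x : ℕ in atTop, (1 + Real.log (N x)) ^ 2 * e x * Real.log x ≤ x / Real.log x)
    (hcorr : ∀ᶠ x in atTop, ∀ n n', 1 ≤ n → n ≤ N x → 1 ≤ n' → n' ≤ N x → n.Coprime Q →
      n'.Coprime Q → (∃ q, q.Prime ∧ ¬ n.factorization q ≡ n'.factorization q [MOD 2 * h]) →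
      ‖∑ a ∈ A x, (W x a : ℂ) * Ψ a n * conj (Ψ a n')‖ ≤ e x)
    (T : Set ℝ) (t0 : ℝ) (ht0 : 0 < t0) (hT0 : ∀ t ∈ T, t0 ≤ t) (CT : ℝ) (hCT : 0 < CT)
    (hTf : ∀ R : ℝ, 1 ≤ R → ∃ F : Finset ℝ, (∀ t ∈ T, t ≤ R → t ∈ F) ∧ (#F : ℝ) ≤ CT * R)
    (P : Set ℕ) (J : ℕ → ι) (hJ : Set.InjOn J P)
    (hJA : ∀ᶠ x in atTop, ∀ p ∈ P, x < p ^ 2 → p ≤ x → J p ∈ A x ∧ 1 ≤ W x (J p))
    (hJ0 : ∀ᶠ x in atTop, ∀ p ∈ P, x < p ^ 2 → p ≤ x →
      ∀ q, q.Prime → ¬ q ∣ Q → q ≤ N x → Ψ (J p) q ≠ 0)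
    (B : ℕ → Prop) (Cη : ℝ) (hCη : 0 < Cη)
    (happ : ∀ᶠ x : ℕ in atTop, ∃ Exc : Finset ℕ,
      (#Exc : ℝ) ≤ (x : ℝ) ^ (3 / 4 : ℝ) ∧ ∀ p ∈ P, x < p ^ 2 → p ≤ x → p ∉ Exc → B p →
        ∃ t ∈ T, |‖∑ n ∈ Icc 1 (N x), Ψ (J p) n / n‖ ^ 2 - t| ≤ Cη / Real.log x) :
    ∃ C' : ℝ, 0 < C' ∧ ∀ᶠ x : ℕ in atTop,
      (#((range (x + 1)).filter (fun p => p ∈ P ∧ B p)) : ℝ) ≤
        C' * (x / (Real.log x) ^ (11 / 10 : ℝ)) := by
  have elog : ∀ᶠ x : ℕ in atTop, 1 ≤ Real.log x := tendsto_log_nat.eventually_ge_atTop 1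
  obtain ⟨c0, hc0, C1, hC1, m0, hmain⟩ := core h hh ζ hζ Q hQ Ψ hΨ hΨQ C hC0 T t0 ht0 hT0 CT hCT hTf
  obtain ⟨cm, hcm, hmge⟩ := mf_ge h hh
  have hhR : (1 : ℝ) ≤ h := by exact_mod_cast hh
  refine ⟨C1 / cm + 1, by positivity, ?_⟩
  have hlogbig : ∀ᶠ x : ℕ in atTop, (Cη / c0) ≤ ((mf h x : ℕ) : ℝ) := by
    have := (tendsto_natCast_atTop_atTop (R := ℝ)).comp (mf_tendsto h hh)
    exact this.eventually_ge_atTop _
  filter_upwards [happ, hJA, hJ0, hN, elog, hC, he2, he, hcorr,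
    (mf_tendsto h hh).eventually_ge_atTop m0, (mf_tendsto h hh).eventually_ge_atTop 1,
    eventually_ge_atTop 1, hmge, log_pow_le 2 3 (1 / 4) (by norm_num) (by norm_num), hlogbig] with
    x h2 h3 h4 h5 h6 hCx he2x hex hcorrx hm0 hm1 h7 hmgex h8 hlb
  obtain ⟨Exc, hExc, happx⟩ := h2
  have hx0 : (0 : ℝ) < x := by exact_mod_cast h7
  have hx1 : (1 : ℝ) ≤ x := by exact_mod_cast h7
  have hL0 : 0 < Real.log x := by linarith
  set L := Real.log x with hL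
  set m := mf h x with hm
  have hmR : (1 : ℝ) ≤ m := by exact_mod_cast hm1
  have hm100 : (m : ℝ) ^ 100 ≤ L / (400 * h) := mf_le h x hL0.le
  have hm100' : (m : ℝ) ^ 100 * (400 * h) ≤ L := by
    rwa [le_div_iff₀ (by positivity)] at hm100
  have hmL : (m : ℝ) ^ 100 ≤ L := by
    have : (0 : ℝ) ≤ (m : ℝ) ^ 100 := by positivity
    nlinarith
  -- (i)
  have hi : 16 ^ (2 * h * m ^ 100) ≤ N x := by
    have e1 : ((16 : ℝ) ^ (2 * h * m ^ 100)) ≤ (x : ℝ) ^ (1 / 50 : ℝ) := by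
      have e2 : Real.log 16 ≤ 4 := by
        have : Real.log 16 = 4 * Real.log 2 := by
          rw [show (16 : ℝ) = 2 ^ 4 by norm_num, Real.log_pow]; norm_num
        have := Real.log_two_lt_d9
        linarith
      rw [← Real.exp_log (show (0 : ℝ) < 16 by norm_num), ← Real.exp_nat_mul,
        Real.rpow_def_of_pos hx0]
      apply Real.exp_le_exp.mpr
      push_cast
      rw [← hL]
      calc 2 * (h : ℝ) * (m : ℝ) ^ 100 * Real.log 16 ≤ 2 * h * (m : ℝ) ^ 100 * 4 := by gcongr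
        _ = ((m : ℝ) ^ 100 * (400 * h)) * (1 / 50) := by ring
        _ ≤ L * (1 / 50) := by gcongr
    have e3 := e1.trans h5
    exact_mod_cast e3
  -- (ii)
  have hii : (2 * h : ℝ) ^ (m ^ 100) * e x ≤ x / L := by
    refine le_trans (mul_le_mul_of_nonneg_right ?_ (he0 x)) he2x
    have e2 : Real.log (2 * h) ≤ 2 * h := by
      have := Real.log_le_sub_one_of_pos (show (0 : ℝ) < 2 * h by positivity)
      linarith
    rw [← Real.exp_log (show (0 : ℝ) < 2 * h by positivity), ← Real.exp_nat_mul,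
      Real.rpow_def_of_pos hx0]
    apply Real.exp_le_exp.mpr
    push_cast
    rw [← hL]
    calc (m : ℝ) ^ 100 * Real.log (2 * h) ≤ (m : ℝ) ^ 100 * (2 * h) := by gcongr
      _ = ((m : ℝ) ^ 100 * (400 * h)) * (1 / 200) := by ring
      _ ≤ L * (1 / 200) := by gcongr
  -- (iii)
  have hiii : (1 + Real.log (N x)) ^ 2 * e x * (m : ℝ) ^ 98 ≤ x / L := by
    refine le_trans ?_ hex
    apply mul_le_mul_of_nonneg_left _ (mul_nonneg (sq_nonneg _) (he0 x))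
    exact (pow_le_pow_right₀ hmR (by norm_num : 98 ≤ 100)).trans hmL
  -- the size of `η`
  have hη : Cη / L * (m : ℝ) ^ 44 ≤ c0 := by
    have e1 : (m : ℝ) ^ 44 * m ≤ L := by
      calc (m : ℝ) ^ 44 * m = (m : ℝ) ^ 45 := by ring
        _ ≤ (m : ℝ) ^ 100 := pow_le_pow_right₀ hmR (by norm_num)
        _ ≤ L := hmL
    rw [div_mul_eq_mul_div, div_le_iff₀ hL0]
    rw [div_le_iff₀ hc0] at hlb
    calc Cη * (m : ℝ) ^ 44 ≤ (m * c0) * (m : ℝ) ^ 44 :=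
          mul_le_mul_of_nonneg_right hlb (by positivity)
      _ = c0 * ((m : ℝ) ^ 44 * m) := by ring
      _ ≤ c0 * L := mul_le_mul_of_nonneg_left e1 hc0.le
  have h1 := hmain m hm0 (A x) (W x) (hW x) (N x) hi (x / L) (e x) (by positivity) (he0 x) hCx hii
    hiii hcorrx (Cη / L) hη
  set S := (range (x + 1)).filter (fun p => p ∈ P ∧ B p) with hS
  set G := S.filter (fun p => x < p ^ 2 ∧ p ∉ Exc) with hG
  set R := (range (Nat.sqrt x + 1)) with hR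
  have hsub : S ⊆ (R ∪ Exc) ∪ G := by
    intro p hp
    rw [mem_union, mem_union]
    by_cases c1 : p ∈ Exc
    · exact Or.inl (Or.inr c1)
    by_cases c2 : x < p ^ 2
    · exact Or.inr (mem_filter.mpr ⟨hp, c2, c1⟩)
    · left; left
      rw [hR, mem_range]
      push Not at c2
      rw [sq] at c2
      have := Nat.le_sqrt.mpr c2
      omega
  have hcard : (#S : ℝ) ≤ (#R : ℝ) + #Exc + #G := by
    have c1 : #S ≤ #((R ∪ Exc) ∪ G) := card_le_card hsub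
    have c2 := card_union_le (R ∪ Exc) G
    have c3 := card_union_le R Exc
    have : #S ≤ #R + #Exc + #G := by omega
    exact_mod_cast this
  have hRc : (#R : ℝ) ≤ 2 * (x : ℝ) ^ (3 / 4 : ℝ) := by
    rw [hR, card_range]
    have c1 : (Nat.sqrt x : ℝ) ≤ (x : ℝ) ^ (3 / 4 : ℝ) := by
      have c2 : (Nat.sqrt x : ℝ) ≤ Real.sqrt x := Real.nat_sqrt_le_real_sqrt
      refine c2.trans ?_
      rw [Real.sqrt_eq_rpow]
      apply Real.rpow_le_rpow_of_exponent_le hx1 (by norm_num)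
    have c2 : 1 ≤ (x : ℝ) ^ (3 / 4 : ℝ) :=
      Real.one_le_rpow hx1 (by norm_num)
    push_cast
    linarith
  have hNm : m ^ 100 ≤ N x := by
    refine le_trans (Nat.lt_pow_self (n := m ^ 100) (show 1 < 16 by norm_num)).le
      (le_trans (Nat.pow_le_pow_right (by norm_num) ?_) hi)
    exact Nat.le_mul_of_pos_left _ (by omega)
  have hGc : (#G : ℝ) * (m : ℝ) ^ 10 ≤ C1 * (x / L) := by
    refine le_trans (mul_le_mul_of_nonneg_right ?_ (by positivity)) h1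
    have hGP : ∀ p ∈ G, p ∈ P ∧ B p ∧ p ≤ x ∧ x < p ^ 2 ∧ p ∉ Exc := by
      intro p hp
      rw [hG, mem_filter, hS, mem_filter, mem_range] at hp
      exact ⟨hp.1.2.1, hp.1.2.2, by omega, hp.2.1, hp.2.2⟩
    have hinj : Set.InjOn J (G : Set ℕ) := fun p hp p' hp' hpp =>
      hJ (hGP p hp).1 (hGP p' hp').1 hpp
    calc (#G : ℝ) = ∑ _p ∈ G, (1 : ℝ) := by simp
      _ ≤ ∑ p ∈ G, W x (J p) := by
          apply sum_le_sum
          intro p hp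
          obtain ⟨g1, g2, g3, g4, g5⟩ := hGP p hp
          exact (h3 p g1 g4 g3).2
      _ = ∑ a ∈ G.image J, W x a := by
          rw [sum_image (fun p hp p' hp' hpp => hinj hp hp' hpp)]
      _ ≤ _ := by
          apply sum_le_sum_of_subset_of_nonneg
          · intro a ha
            rw [mem_image] at ha
            obtain ⟨p, hp, rfl⟩ := ha
            obtain ⟨g1, g2, g3, g4, g5⟩ := hGP p hp
            rw [mem_filter]
            refine ⟨(h3 p g1 g4 g3).1, ?_, happx p g1 g4 g3 g5 g2⟩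
            intro q hq hqQ hqy
            exact h4 p g1 g4 g3 q hq hqQ (hqy.trans hNm)
          · intro a _ _
            exact hW x a
  have hLp : L ^ (11 / 10 : ℝ) = L * L ^ (1 / 10 : ℝ) := by
    nth_rw 2 [← Real.rpow_one L]
    rw [← Real.rpow_add hL0]
    norm_num
  have hL10 : 0 < L ^ (1 / 10 : ℝ) := Real.rpow_pos_of_pos hL0 _
  have hG2 : (#G : ℝ) ≤ C1 / cm * (x / L ^ (11 / 10 : ℝ)) := by
    have c1 : (#G : ℝ) * (cm * L ^ (1 / 10 : ℝ)) ≤ C1 * (x / L) :=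
      (mul_le_mul_of_nonneg_left hmgex (Nat.cast_nonneg _)).trans hGc
    rw [hLp]
    have c2 : C1 / cm * (x / (L * L ^ (1 / 10 : ℝ))) = C1 * (x / L) / (cm * L ^ (1 / 10 : ℝ)) := by
      field_simp
    rw [c2, le_div_iff₀ (by positivity)]
    exact c1
  have hx34 : 3 * (x : ℝ) ^ (3 / 4 : ℝ) ≤ x / L ^ (11 / 10 : ℝ) := by
    have c0 : L ^ (11 / 10 : ℝ) ≤ L ^ 2 := by
      rw [← Real.rpow_natCast]
      exact Real.rpow_le_rpow_of_exponent_le h6 (by norm_num)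
    have c1 : (x : ℝ) ^ (1 / 4 : ℝ) * (x : ℝ) ^ (3 / 4 : ℝ) = x := by
      rw [← Real.rpow_add hx0]; norm_num
    rw [le_div_iff₀ (Real.rpow_pos_of_pos hL0 _)]
    calc 3 * (x : ℝ) ^ (3 / 4 : ℝ) * L ^ (11 / 10 : ℝ) ≤ 3 * (x : ℝ) ^ (3 / 4 : ℝ) * L ^ 2 := by
          gcongr
      _ = (3 * L ^ 2) * (x : ℝ) ^ (3 / 4 : ℝ) := by ring
      _ ≤ (x : ℝ) ^ (1 / 4 : ℝ) * (x : ℝ) ^ (3 / 4 : ℝ) :=
          mul_le_mul_of_nonneg_right h8 (by positivity)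
      _ = x := c1
  calc (#S : ℝ) ≤ #R + #Exc + #G := hcard
    _ ≤ 3 * (x : ℝ) ^ (3 / 4 : ℝ) + C1 / cm * (x / L ^ (11 / 10 : ℝ)) := by linarith
    _ ≤ (C1 / cm + 1) * (x / L ^ (11 / 10 : ℝ)) := by linarith

end Pool.Agent.K1H92.RB
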