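import Mathlib

set_option autoImplicit false

/-! # From a counting bound to the convergence of the sum of the reciprocals -/

namespace Pool.Agent.K1H92.RB

open Finset Filter Topology

lemma dyadic (f : ℕ → ℝ) (hf : ∀ n, 0 ≤ f n) (b : ℕ → ℝ)
    (hb : ∀ k, ∑ n ∈ Ico (2 ^ k) (2 ^ (k + 1)), f n ≤ b k) (K : ℕ) :
    ∑ n ∈ range (2 ^ K), f n ≤ f 0 + ∑ k ∈ range K, b k := by
  induction K with
  | zero => simp
  | succ K ih =>
    rw [sum_range_succ, range_eq_Ico,
      ← sum_Ico_consecutive f (Nat.zero_le (2 ^ K)) (Nat.pow_le_pow_right (by norm_num) (Nat.le_succ K)),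
      ← range_eq_Ico]
    have := hb K
    linarith

open Classical in
theorem finish (S : Set ℕ) (C' : ℝ) (hC' : 0 < C')
    (h : ∀ᶠ x : ℕ in atTop, (Nat.card {p : ℕ | p ≤ x ∧ p ∈ S} : ℝ) ≤
      C' * (x / (Real.log x) ^ (11 / 10 : ℝ))) :
    (∃ C : ℝ, ∀ x : ℕ, 2 ≤ x → (Nat.card {p : ℕ | p ≤ x ∧ p ∈ S} : ℝ) ≤
      C * (x / (Real.log x) ^ (11 / 10 : ℝ))) ∧
    Summable (fun p : S => (1 : ℝ) / (p : ℕ)) := by
  have hcardle : ∀ x : ℕ, (Nat.card {p : ℕ | p ≤ x ∧ p ∈ S} : ℝ) ≤ x + 1 := by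
    intro x
    have h1 : Nat.card {p : ℕ | p ≤ x ∧ p ∈ S} ≤ x + 1 := by
      rw [Nat.card_coe_set_eq]
      calc ({p : ℕ | p ≤ x ∧ p ∈ S} : Set ℕ).ncard ≤ ((range (x + 1) : Finset ℕ) : Set ℕ).ncard := by
            apply Set.ncard_le_ncard _ (finite_toSet _)
            intro p hp
            rw [mem_coe, mem_range]
            exact Nat.lt_succ_of_le hp.1
        _ = x + 1 := by rw [Set.ncard_coe_finset, card_range]
    exact_mod_cast h1
  have hall : ∃ C : ℝ, 0 < C ∧ ∀ x : ℕ, 2 ≤ x → (Nat.card {p : ℕ | p ≤ x ∧ p ∈ S} : ℝ) ≤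
      C * (x / (Real.log x) ^ (11 / 10 : ℝ)) := by
    obtain ⟨X, hX⟩ := eventually_atTop.mp h
    refine ⟨C' + 2 * (Real.log (X + 2)) ^ (11 / 10 : ℝ), ?_, fun x hx => ?_⟩
    · have : 0 ≤ (Real.log (X + 2)) ^ (11 / 10 : ℝ) :=
        Real.rpow_nonneg (Real.log_nonneg (by
          have : (0 : ℝ) ≤ X := Nat.cast_nonneg X
          linarith)) _
      linarith
    have hx2 : (2 : ℝ) ≤ x := by exact_mod_cast hx
    have hl : 0 < Real.log x := Real.log_pos (by linarith)
    have hlp : 0 < (Real.log x) ^ (11 / 10 : ℝ) := Real.rpow_pos_of_pos hl _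
    have hq : 0 ≤ x / (Real.log x) ^ (11 / 10 : ℝ) := by positivity
    have hX0 : (0 : ℝ) ≤ X := Nat.cast_nonneg X
    have hXp : 0 ≤ (Real.log (X + 2)) ^ (11 / 10 : ℝ) :=
        Real.rpow_nonneg (Real.log_nonneg (by linarith)) _
    by_cases hxX : X ≤ x
    · refine (hX x hxX).trans ?_
      apply mul_le_mul_of_nonneg_right _ hq
      linarith
    · push Not at hxX
      refine (hcardle x).trans ?_
      have h1 : Real.log x ≤ Real.log (X + 2) := by
        apply Real.log_le_log (by linarith)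
        have : (x : ℝ) ≤ X := by exact_mod_cast hxX.le
        linarith
      have h2 : (Real.log x) ^ (11 / 10 : ℝ) ≤ (Real.log (X + 2)) ^ (11 / 10 : ℝ) :=
        Real.rpow_le_rpow hl.le h1 (by norm_num)
      have h3 : (x : ℝ) + 1 ≤ 2 * (Real.log (X + 2)) ^ (11 / 10 : ℝ) *
          (x / (Real.log x) ^ (11 / 10 : ℝ)) := by
        rw [← mul_div_assoc, le_div_iff₀ hlp]
        calc ((x : ℝ) + 1) * (Real.log x) ^ (11 / 10 : ℝ) ≤
              (2 * x) * (Real.log (X + 2)) ^ (11 / 10 : ℝ) := by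
              apply mul_le_mul _ h2 hlp.le (by linarith)
              linarith
          _ = _ := by ring
      rw [add_mul]
      have : 0 ≤ C' * (x / (Real.log x) ^ (11 / 10 : ℝ)) := by positivity
      linarith
  obtain ⟨C, hC, hall⟩ := hall
  refine ⟨⟨C, hall⟩, ?_⟩
  -- the sum of the reciprocals
  set f : ℕ → ℝ := Set.indicator S (fun n => (1 : ℝ) / n) with hf
  have hf0 : ∀ n, 0 ≤ f n := by
    intro n
    rw [hf, Set.indicator_apply]
    split_ifs <;> positivity
  set b : ℕ → ℝ := fun k => (2 * C / (Real.log 2) ^ (11 / 10 : ℝ)) *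
    (1 / ((k : ℝ) + 1) ^ (11 / 10 : ℝ)) with hb
  have hl2 : 0 < Real.log 2 := Real.log_pos (by norm_num)
  have hbk : ∀ k, ∑ n ∈ Ico (2 ^ k) (2 ^ (k + 1)), f n ≤ b k := by
    intro k
    have h1 : ∀ n ∈ Ico (2 ^ k) (2 ^ (k + 1)), f n ≤ if n ∈ S then (1 : ℝ) / 2 ^ k else 0 := by
      intro n hn
      rw [mem_Ico] at hn
      rw [hf, Set.indicator_apply]
      split_ifs with h2
      · apply one_div_le_one_div_of_le (by positivity)
        exact_mod_cast hn.1
      · exact le_rfl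
    refine (sum_le_sum h1).trans ?_
    rw [← sum_filter, sum_const, nsmul_eq_mul]
    have h2 : (#((Ico (2 ^ k) (2 ^ (k + 1))).filter (fun n => n ∈ S)) : ℝ) ≤
        (Nat.card {p : ℕ | p ≤ 2 ^ (k + 1) ∧ p ∈ S} : ℝ) := by
      rw [Nat.card_coe_set_eq]
      have h3 : #((Ico (2 ^ k) (2 ^ (k + 1))).filter (fun n => n ∈ S)) ≤
          ({p : ℕ | p ≤ 2 ^ (k + 1) ∧ p ∈ S} : Set ℕ).ncard := by
        rw [← Set.ncard_coe_finset]
        apply Set.ncard_le_ncard
        · intro n hn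
          rw [mem_coe, mem_filter, mem_Ico] at hn
          exact ⟨hn.1.2.le, hn.2⟩
        · exact (Set.finite_le_nat (2 ^ (k + 1))).subset fun p hp => hp.1
      exact_mod_cast h3
    have h4 := hall (2 ^ (k + 1)) (by
      calc 2 = 2 ^ 1 := by norm_num
        _ ≤ 2 ^ (k + 1) := Nat.pow_le_pow_right (by norm_num) (by omega))
    push_cast at h4
    rw [Real.log_pow] at h4
    push_cast at h4
    have hk1 : (0 : ℝ) < (k : ℝ) + 1 := by positivity
    rw [Real.mul_rpow hk1.le hl2.le] at h4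
    have h5 : 0 < ((k : ℝ) + 1) ^ (11 / 10 : ℝ) := Real.rpow_pos_of_pos hk1 _
    have h6 : 0 < (Real.log 2) ^ (11 / 10 : ℝ) := Real.rpow_pos_of_pos hl2 _
    calc (#((Ico (2 ^ k) (2 ^ (k + 1))).filter (fun n => n ∈ S)) : ℝ) * (1 / 2 ^ k) ≤
          (C * (2 ^ (k + 1) / (((k : ℝ) + 1) ^ (11 / 10 : ℝ) * (Real.log 2) ^ (11 / 10 : ℝ)))) *
            (1 / 2 ^ k) := mul_le_mul_of_nonneg_right (h2.trans h4) (by positivity)
      _ = b k := by
          rw [hb, pow_succ]
          simp only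
          field_simp
  have hbs : Summable b := by
    have h1 : Summable (fun n : ℕ => 1 / (n : ℝ) ^ (11 / 10 : ℝ)) :=
      Real.summable_one_div_nat_rpow.mpr (by norm_num)
    have h2 := (summable_nat_add_iff 1).mpr h1
    have h3 : Summable (fun k : ℕ => 1 / ((k : ℝ) + 1) ^ (11 / 10 : ℝ)) := by
      refine h2.congr fun k => ?_
      push_cast
      rfl
    exact h3.mul_left _
  have hb0 : ∀ k, 0 ≤ b k := by
    intro k
    simp only [hb]
    positivity
  have hfs : Summable f := by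
    refine summable_of_sum_range_le (c := f 0 + ∑' k, b k) hf0 fun n => ?_
    calc ∑ i ∈ range n, f i ≤ ∑ i ∈ range (2 ^ n), f i := by
          apply sum_le_sum_of_subset_of_nonneg
          · exact range_subset_range.mpr (Nat.lt_pow_self (by norm_num)).le
          · intro i _ _; exact hf0 i
      _ ≤ f 0 + ∑ k ∈ range n, b k := dyadic f hf0 b hbk n
      _ ≤ f 0 + ∑' k, b k := by
          have := hbs.sum_le_tsum (range n) (fun k _ => hb0 k)
          linarith
  exact summable_subtype_iff_indicator.mpr hfs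

end Pool.Agent.K1H92.RB
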