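import Mathlib
import Pool.Agent.R361.QF.Four
import Pool.Agent.K1H92.RB.Gen

set_option autoImplicit false

/-! # The quartic indices, with a rate -/

namespace Pool.Agent.K1H92.RB

open Finset Filter Topology
open Pool.Agent.R361 Pool.Agent.R361.QF
open Pool.Agent.R361.AC (oddTo cw)

lemma T4_one : ∀ t ∈ T4, 1 ≤ t := by
  rintro t ⟨m, hm, rfl⟩
  have hpi := Real.pi_gt_three
  have h0 : (1 : ℝ) ≤ Real.pi ^ 2 / 4 := by nlinarith
  have : (1 : ℝ) ≤ m := by exact_mod_cast hm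
  nlinarith

lemma T4_few : ∀ R : ℝ, 1 ≤ R → ∃ F : Finset ℝ, (∀ t ∈ T4, t ≤ R → t ∈ F) ∧ (#F : ℝ) ≤ 2 * R := by
  classical
  intro R hR
  refine ⟨(range (⌊R⌋₊ + 1)).image (fun m : ℕ => Real.pi ^ 2 / 4 * (m : ℝ)), ?_, ?_⟩
  · rintro t ⟨m, hm, rfl⟩ htR
    rw [mem_image]
    refine ⟨m, ?_, rfl⟩
    rw [mem_range, Nat.lt_succ_iff]
    apply Nat.le_floor
    have hpi := Real.pi_gt_three
    have h0 : (1 : ℝ) ≤ Real.pi ^ 2 / 4 := by nlinarith
    have : (0 : ℝ) ≤ m := Nat.cast_nonneg m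
    nlinarith
  · have h1 : #((range (⌊R⌋₊ + 1)).image (fun m : ℕ => Real.pi ^ 2 / 4 * (m : ℝ))) ≤ ⌊R⌋₊ + 1 :=
      card_image_le.trans (by rw [card_range])
    have h2 : ((⌊R⌋₊ : ℕ) : ℝ) ≤ R := Nat.floor_le (by linarith)
    have h3 : ((#((range (⌊R⌋₊ + 1)).image (fun m : ℕ => Real.pi ^ 2 / 4 * (m : ℝ))) : ℕ) : ℝ) ≤
        ((⌊R⌋₊ + 1 : ℕ) : ℝ) := by exact_mod_cast h1
    push_cast at h3
    linarith

theorem four_rate : ∃ C' : ℝ, 0 < C' ∧ ∀ᶠ x : ℕ in atTop,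
      (Nat.card {p : ℕ | p ≤ x ∧ p ∈ P4 ∧ B4 p} : ℝ) ≤
        C' * (x / (Real.log x) ^ (11 / 10 : ℝ)) := by
  obtain ⟨J, hJ⟩ := exists_J
  apply generic_rate (A := -1) (B := 0) 2 (by norm_num) 2 (by norm_num) psi4 psi4_QD
    (fun q => if q % 4 = 3 then -1 else 1) (fun q => by
      by_cases h : q % 4 = 3
      · right; simp [h]
      · left; simp [h])
    x4 2 Nat.prime_two x4_prime (x4_even 2 rfl) (2 / 3) (by norm_num) x4_lower x4_split gi_size
    P4 (fun p hp => hp.1) J _ _ T4 1 one_pos T4_one 2 (by norm_num) T4_few B4 96 (by norm_num) _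
  · intro p hp
    obtain ⟨_, χ, hχ, hJp⟩ := hJ p hp
    rw [hJp]
    exact Jg_norm χ hχ
  · intro p hp q hq hqQ hqp
    obtain ⟨hF, χ, hχ, hJp⟩ := hJ p hp
    have hneg := chi_neg_one4 χ hχ hp.2
    have hq2 : q ≠ 2 := by
      rintro rfl
      exact hqQ dvd_rfl
    have h1 := chi_psi4 χ hχ hneg q hq hq2 (Ne.symm hqp)
    rw [hJp]
    intro h0
    rw [h0, mul_zero] at h1
    have h2 : χ (q : ZMod p) = 0 := gC_inj (by rw [h1, map_zero])
    have h3 : (q : ZMod p) ≠ 0 := by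
      rw [Ne, ZMod.natCast_eq_zero_iff]
      intro hd
      exact hqp ((Nat.prime_dvd_prime_iff_eq hp.1 hq).mp hd).symm
    have h4 := chi_val4 χ hχ _ h3
    rw [h2] at h4
    norm_num at h4
  · obtain ⟨x0, hx0⟩ := AC.cot_approx (1 / 50) (by norm_num) (by norm_num)
    filter_upwards [eventually_ge_atTop x0, ev_pow,
      AC.tendsto_log_nat.eventually_ge_atTop 1, eventually_ge_atTop 64] with x hx1 hx3 hx4 hx5
    obtain ⟨hlog, Exc, hE, happ⟩ := hx0 x hx1
    refine ⟨Exc, hE, ?_⟩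
    intro p hp hxp hpx hpE hB
    obtain ⟨hF, χ, hχ, hJp⟩ := hJ p hp
    have hp8 : p % 8 = 5 := hp.2
    have h9 : 9 ≤ p := by nlinarith
    set c : DirichletCharacter ℂ p := χ.ringHomComp gC with hc
    have hneg := chi_neg_one4 χ hχ hp8
    have hodd : DirichletCharacter.Odd c := by
      unfold DirichletCharacter.Odd
      rw [hc, MulChar.ringHomComp_apply, hneg, map_neg, map_one]
    have hc1 : c ≠ 1 := by
      intro h
      rw [h] at hodd
      unfold DirichletCharacter.Odd at hodd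
      rw [MulChar.one_apply (isUnit_one.neg)] at hodd
      norm_num at hodd
    have h1 := happ p hp.1 hpx hxp hpE c hc1 (Nf x) hx3.2.1 hx3.2.2
    refine ⟨_, target4 p χ hχ hp8 h9 hB, ?_⟩
    have hNp : Nf x < p := Nf_lt (by omega) hxp
    rw [hJp, short4 p χ hχ hp8 (Nf x) hNp]
    refine diff_sq _ _ (Real.log x) hx4 h1 ?_
    refine (norm_short c (Nf x)).trans ?_
    have h3 : Real.log (Nf x) ≤ Real.log x := by
      rcases Nat.eq_zero_or_pos (Nf x) with h0 | h0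
      · rw [h0]; simp; linarith
      · apply Real.log_le_log (by exact_mod_cast h0)
        exact_mod_cast (hNp.le.trans hpx)
    linarith

end Pool.Agent.K1H92.RB
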