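import Mathlib
import Pool.Agent.R361.SX.Six
import Pool.Agent.K1H92.RB.Gen

set_option autoImplicit false

/-! # The sextic indices, with a rate -/

namespace Pool.Agent.K1H92.RB

open Finset Filter Topology
open Pool.Agent.R361 Pool.Agent.R361.SX
open Pool.Agent.Y692.QS
open Pool.Agent.R361.AC (oddTo cw)
open Pool.Agent.R361.QF (cm cm_prime cm_eq_hom dh dh_apply cm_zero_of_dvd norm_short ev_small ev_pow
  Nf Nf_lt Yf)
open scoped ComplexConjugate

lemma T6_ge (u : ℂ) (hu : u ^ 6 = 1) (m : ℕ) :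
    (m : ℝ) ≤ ‖1 - u / 3‖ ^ 2 * (Real.pi ^ 2 / 4 * m) := by
  have h1 := fac_lower u hu
  have hpi := Real.pi_gt_three
  have h0 : (1 : ℝ) ≤ 4 / 9 * (Real.pi ^ 2 / 4) := by nlinarith
  have hm0 : (0 : ℝ) ≤ m := Nat.cast_nonneg m
  have h2 : 4 / 9 * (Real.pi ^ 2 / 4 * (m : ℝ)) ≤ ‖1 - u / 3‖ ^ 2 * (Real.pi ^ 2 / 4 * m) :=
    mul_le_mul_of_nonneg_right h1 (by positivity)
  nlinarith

lemma T6_one : ∀ t ∈ T6, 1 ≤ t := by
  rintro t ⟨u, hu, m, hm, rfl⟩
  have h1 : (1 : ℝ) ≤ m := by exact_mod_cast hm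
  exact h1.trans (T6_ge u hu m)

lemma T6_few : ∀ R : ℝ, 1 ≤ R → ∃ F : Finset ℝ, (∀ t ∈ T6, t ≤ R → t ∈ F) ∧
    (#F : ℝ) ≤ 12 * R := by
  classical
  intro R hR
  set U : Finset ℂ := Polynomial.nthRootsFinset 6 (1 : ℂ) with hU
  have hUc : #U ≤ 6 := by
    rw [hU, Polynomial.nthRootsFinset_def]
    exact (Multiset.toFinset_card_le _).trans (Polynomial.card_nthRoots 6 1)
  refine ⟨(U ×ˢ range (⌊R⌋₊ + 1)).image
    (fun z : ℂ × ℕ => ‖1 - z.1 / 3‖ ^ 2 * (Real.pi ^ 2 / 4 * (z.2 : ℝ))), ?_, ?_⟩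
  · rintro t ⟨u, hu, m, hm, rfl⟩ htR
    rw [mem_image]
    refine ⟨(u, m), ?_, rfl⟩
    rw [mem_product, mem_range, Nat.lt_succ_iff]
    refine ⟨?_, ?_⟩
    · rw [hU, Polynomial.mem_nthRootsFinset (by norm_num)]
      exact hu
    · apply Nat.le_floor
      exact (T6_ge u hu m).trans htR
  · have h1 : #((U ×ˢ range (⌊R⌋₊ + 1)).image
        (fun z : ℂ × ℕ => ‖1 - z.1 / 3‖ ^ 2 * (Real.pi ^ 2 / 4 * (z.2 : ℝ)))) ≤
        6 * (⌊R⌋₊ + 1) := by
      refine card_image_le.trans ?_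
      rw [card_product, card_range]
      exact Nat.mul_le_mul_right _ hUc
    have h2 : ((⌊R⌋₊ : ℕ) : ℝ) ≤ R := Nat.floor_le (by linarith)
    have h3 : ((#((U ×ˢ range (⌊R⌋₊ + 1)).image
        (fun z : ℂ × ℕ => ‖1 - z.1 / 3‖ ^ 2 * (Real.pi ^ 2 / 4 * (z.2 : ℝ)))) : ℕ) : ℝ) ≤
        ((6 * (⌊R⌋₊ + 1) : ℕ) : ℝ) := by exact_mod_cast h1
    push_cast at h3
    linarith

theorem six_rate : ∃ C' : ℝ, 0 < C' ∧ ∀ᶠ x : ℕ in atTop,
      (Nat.card {p : ℕ | p ≤ x ∧ p ∈ P6 ∧ B6 p} : ℝ) ≤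
        C' * (x / (Real.log x) ^ (11 / 10 : ℝ)) := by
  obtain ⟨J, hJ⟩ := exists_J
  have hnr : ∀ p ∈ P6, nr (J p) = p := by
    intro p hp
    obtain ⟨π, hπ, hJp⟩ := hJ p hp
    have h12 : p % 12 = 7 := hp.2
    have h3 : ¬ (3 : ℤ) ∣ nr π := by rw [hπ]; omega
    rw [hJp, nr_ns h3, hπ]
  apply generic_rate (A := -1) (B := -1) 3 (by norm_num) 6 (by norm_num) psi6 psi6_QD
    (fun q => if q % 4 = 3 then -1 else 1) (fun q => by
      by_cases h : q % 4 = 3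
      · right; simp [h]
      · left; simp [h])
    x3 3 Nat.prime_three x3_prime (x3_zero 3 rfl) (1 / 2) (by norm_num) x3_lower x3_split ei_size
    P6 (fun p hp => hp.1) J _ _ T6 1 one_pos T6_one 12 (by norm_num) T6_few B6 384 (by norm_num) _
  · intro p hp
    rw [← nr_eq]
    exact hnr p hp
  · intro p hp q hq hqQ hqp
    have hF : Fact q.Prime := ⟨hq⟩
    have hd : ¬ (q : ℤ) ∣ nr (J p) := by
      rw [hnr p hp]
      intro h
      have : q ∣ p := by exact_mod_cast h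
      exact hqp ((Nat.prime_dvd_prime_iff_eq hq hp.1).mp this)
    rw [psi6_eq q hqQ _ hd]
    obtain ⟨h1, h2⟩ := psi6_parts q hqQ _ hd
    apply mul_ne_zero
    · intro h; rw [h] at h1; norm_num at h1
    · intro h; rw [h] at h2; norm_num at h2
  · obtain ⟨x0, hx0⟩ := AC.cot_approx (1 / 50) (by norm_num) (by norm_num)
    filter_upwards [eventually_ge_atTop x0, ev_pow,
      AC.tendsto_log_nat.eventually_ge_atTop 1, eventually_ge_atTop 144] with x hx1 hx3 hx4 hx5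
    obtain ⟨hlog, Exc, hE, happ⟩ := hx0 x hx1
    refine ⟨Exc, hE, ?_⟩
    intro p hp hxp hpx hpE hB
    obtain ⟨π, hπ, hJp⟩ := hJ p hp
    have hF : Fact p.Prime := ⟨hp.1⟩
    have hp12 : p % 12 = 7 := hp.2
    have hp3 : p ≠ 3 := by omega
    have h13 : 13 ≤ p := by nlinarith
    set c : DirichletCharacter ℂ p := (c6 hπ hp3).ringHomComp toC with hc
    have hodd : DirichletCharacter.Odd c := c6_odd hπ hp3 hp12
    have hc1 : c ≠ 1 := by
      intro h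
      rw [h] at hodd
      unfold DirichletCharacter.Odd at hodd
      rw [MulChar.one_apply (isUnit_one.neg)] at hodd
      norm_num at hodd
    have h1 := happ p hp.1 hpx hxp hpE c hc1 (Nf x) hx3.2.1 hx3.2.2
    have h2 := happ p hp.1 hpx hxp hpE c hc1 (Nf x / 3) hx3.1 (le_trans (by
      exact_mod_cast Nat.div_le_self _ _) hx3.2.2)
    obtain ⟨m, hm, hmv⟩ := target6 hπ hp3 hp12 h13 hB
    rw [← hc] at hmv
    have hNp : Nf x < p := Nf_lt (by omega) hxp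
    set F := ∑ n ∈ oddTo (p - 1), c (n : ZMod p) * (cw p n : ℂ) with hFd
    set v := c ((3 : ℕ) : ZMod p) with hv
    have hv6 : v ^ 6 = 1 := by
      apply c6_pow hπ hp3 hp12
      rw [Ne, ZMod.natCast_eq_zero_iff]
      intro hd
      have := Nat.le_of_dvd (by norm_num) hd
      omega
    refine ⟨‖1 - v / 3‖ ^ 2 * (Real.pi ^ 2 / 4 * m), ⟨v, hv6, m, hm, rfl⟩, ?_⟩
    rw [hJp, short6 hπ hp3 hp12 (Nf x) hNp, ← hc, ← hv, ← hmv, ← mul_pow, ← norm_mul]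
    have hlogN : ∀ N : ℕ, N ≤ Nf x → Real.log N ≤ Real.log x := by
      intro N hN
      rcases Nat.eq_zero_or_pos N with h0 | h0
      · rw [h0]; simp; linarith
      · apply Real.log_le_log (by exact_mod_cast h0)
        exact_mod_cast (hN.trans (hNp.le.trans hpx))
    refine le_trans (diff6 F _ _ v (Real.log x) hx4 (QF.norm_char_le c 3) h1 h2 ?_ ?_) (by rw [show (384 : ℝ) = 4 * 96 by norm_num, mul_div_assoc])
    · refine (norm_short c (Nf x)).trans ?_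
      linarith [hlogN (Nf x) le_rfl]
    · refine (norm_short c (Nf x / 3)).trans ?_
      linarith [hlogN (Nf x / 3) (Nat.div_le_self _ _)]

end Pool.Agent.K1H92.RB
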